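import Pool.Agent.W_30d1b9_h71.Cum

/-!
# MP_30d1b9_co, Circular Nim, the positive half: every position has a move to a balanced position
or is balanced
-/

namespace Pool.Agent.W_30d1b9_h71

theorem jump {f : ℤ → ℤ} {x y : ℤ} (h : f x < f y) (hxy : x < y) :
    ∃ j, x ≤ j ∧ j < y ∧ f j < f (j + 1) := by
  by_contra hcon
  push Not at hcon
  have h1 : ∀ k : ℕ, x + k ≤ y → f (x + k) ≤ f x := by
    intro k
    induction k with
    | zero => intro _; simp
    | succ k ih =>
      intro hk
      push_cast at hk ⊢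
      have h2 := ih (by omega)
      have h3 := hcon (x + k) (by omega) (by omega)
      rw [add_assoc] at h3
      exact h3.trans h2
  have h2 := h1 (y - x).toNat (by omega)
  rw [show x + ((y - x).toNat : ℤ) = y by omega] at h2
  omega

/-- the measure -/
noncomputable def meas (c m : ℤ) (P D : ℤ → ℤ) (y1 y2 : ℤ) : ℤ :=
  (y2 - y1) + ∑ x ∈ Finset.Ioo y1 y2, (P (x + c) - P x - (D (x + c) - D x) - m)

theorem meas_nonneg {n c m T : ℤ} {P D : ℤ → ℤ} (hD : Pack n c m P D T) {y1 y2 : ℤ}
    (h : y1 < y2) : 0 < meas c m P D y1 y2 := by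
  unfold meas
  have : 0 ≤ ∑ x ∈ Finset.Ioo y1 y2, (P (x + c) - P x - (D (x + c) - D x) - m) :=
    Finset.sum_nonneg fun x _ => by have := hD.win x; linarith
  linarith

theorem meas_mono {n c m T : ℤ} {P D : ℤ → ℤ} (hD : Pack n c m P D T) {y1 y2 y1' y2' : ℤ}
    (h1 : y1 ≤ y1') (h2 : y2' ≤ y2) (h3 : y2' - y1' < y2 - y1) :
    meas c m P D y1' y2' < meas c m P D y1 y2 := by
  unfold meas
  have : ∑ x ∈ Finset.Ioo y1' y2', (P (x + c) - P x - (D (x + c) - D x) - m) ≤
      ∑ x ∈ Finset.Ioo y1 y2, (P (x + c) - P x - (D (x + c) - D x) - m) := by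
    refine Finset.sum_le_sum_of_subset_of_nonneg ?_ fun x _ _ => by have := hD.win x; linarith
    intro x hx
    rw [Finset.mem_Ioo] at hx ⊢
    omega
  linarith

theorem meas_lt {c m : ℤ} {P D D' : ℤ → ℤ} {y1 y2 z : ℤ}
    (h : ∀ x, y1 < x → x < y2 → D (x + c) - D x ≤ D' (x + c) - D' x) (hz1 : y1 < z) (hz2 : z < y2)
    (hz : D (z + c) - D z < D' (z + c) - D' z) :
    meas c m P D' y1 y2 < meas c m P D y1 y2 := by
  unfold meas
  have : ∑ x ∈ Finset.Ioo y1 y2, (P (x + c) - P x - (D' (x + c) - D' x) - m) <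
      ∑ x ∈ Finset.Ioo y1 y2, (P (x + c) - P x - (D (x + c) - D x) - m) := by
    refine Finset.sum_lt_sum (fun x hx => ?_) ⟨z, Finset.mem_Ioo.2 ⟨hz1, hz2⟩, by linarith⟩
    rw [Finset.mem_Ioo] at hx
    have := h x hx.1 hx.2
    linarith
  linarith

/-- exchange to the left border of the second tight place -/
theorem exchA {n c m S T : ℤ} (hc : 1 ≤ c) (h2c : 2 * c ≤ n) {P : ℤ → ℤ}
    (hP : ∀ x, P (x + n) = P x + S) {D : ℤ → ℤ} (hD : Opt n c m P D T) {y1 y2 l : ℤ}
    (ht2 : P (y2 + c) - P y2 - (D (y2 + c) - D y2) = m)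
    (hs : ∀ x, y1 < x → x < y2 → m + 1 ≤ P (x + c) - P x - (D (x + c) - D x))
    (h12 : y2 ≤ y1 + c) (hl1 : y1 ≤ l) (hl2 : l + 2 ≤ y2) (hl : D l < D (l + 1)) :
    ∃ D', Opt n c m P D' T ∧ ∀ x, y1 ≤ x → x ≤ y1 + n →
      D' x = if l < x ∧ x < y2 then D x - 1 else D x := by
  obtain ⟨hD1, hD2⟩ := hD
  obtain ⟨f, hf⟩ : ∃ f : ℤ → ℤ, ∀ x, f x = if l < x ∧ x < y2 then D x - 1 else D x :=
    ⟨_, fun _ => rfl⟩
  have hf1 : ∀ x, l < x → x < y2 → f x = D x - 1 := fun x h1 h2 => by rw [hf, if_pos ⟨h1, h2⟩]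
  have hf2 : ∀ x, (x ≤ l ∨ y2 ≤ x) → f x = D x := fun x hx => by rw [hf, if_neg (by omega)]
  have hf3 : ∀ x, f x ≤ D x := fun x => by rw [hf]; split_ifs <;> omega
  have hf4 : ∀ x, D x - 1 ≤ f x := fun x => by rw [hf]; split_ifs <;> omega
  have e1 : f (y1 + n) - f y1 = T := by
    rw [hf2 y1 (by omega), hf2 _ (by omega), hD1.per]
    ring
  have hK : D y2 - D (y2 - 1) + 1 ≤ P y2 - P (y2 - 1) := by
    have g1 := hs (y2 - 1) (by omega) (by omega)
    have g2 := hD1.le (y2 - 1 + c)
    rw [show y2 - 1 + c + 1 = y2 + c by ring] at g2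
    linarith
  have k1 : ∀ x, y1 ≤ x → x < y1 + n → f x ≤ f (x + 1) ∧ f (x + 1) - f x ≤ P (x + 1) - P x := by
    intro x hx1 hx2
    have g1 := hD1.step x
    have g2 := hD1.le x
    rcases lt_trichotomy x l with h | h | h
    · rw [hf2 x (by omega), hf2 (x + 1) (by omega)]
      exact ⟨g1, g2⟩
    · rw [hf2 x (by omega), hf1 (x + 1) (by omega) (by omega), h]
      rw [h] at g2
      constructor <;> linarith
    · rcases lt_trichotomy (x + 1) y2 with h' | h' | h'
      · rw [hf1 x (by omega) (by omega), hf1 (x + 1) (by omega) (by omega)]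
        constructor <;> linarith
      · rw [hf1 x (by omega) (by omega), hf2 (x + 1) (by omega)]
        have e : x = y2 - 1 := by omega
        rw [h', e]
        rw [h', e] at g1
        constructor <;> linarith
      · rw [hf2 x (by omega), hf2 (x + 1) (by omega)]
        exact ⟨g1, g2⟩
  have k2 : ∀ x, y1 ≤ x → x < y1 + n → x + c ≤ y1 + n →
      m ≤ P (x + c) - P x - (f (x + c) - f x) := by
    intro x hx1 hx2 hx3
    have g1 := hf3 (x + c)
    by_cases hx : l < x ∧ x < y2
    · have := hs x (by omega) hx.2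
      have := hf4 x
      linarith
    · rw [hf2 x (by omega)]
      have := hD1.win x
      linarith
  have k3 : ∀ x, y1 ≤ x → x < y1 + n → y1 + n < x + c →
      m ≤ P (x + c) - P x - (f (x + c - n) + (f (y1 + n) - f y1) - f x) := by
    intro x hx1 hx2 hx3
    rw [e1]
    have g1 := hf3 (x + c - n)
    have g2 := hD1.per (x + c - n)
    rw [sub_add_cancel] at g2
    rw [hf2 x (by omega)]
    have := hD1.win x
    linarith
  obtain ⟨D', hD'1, hD'2⟩ := pack_ext (by omega) hc (by omega) hP y1 f k1 k2 k3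
  rw [e1] at hD'1
  exact ⟨D', ⟨hD'1, hD2⟩, fun x h1 h2 => by rw [hD'2 x h1 h2, hf]⟩

/-- exchange to the right border of the first tight place -/
theorem exchB {n c m S T : ℤ} (hc : 1 ≤ c) (h2c : 2 * c ≤ n) {P : ℤ → ℤ}
    (hP : ∀ x, P (x + n) = P x + S) {D : ℤ → ℤ} (hD : Opt n c m P D T) {y1 y2 r : ℤ}
    (ht1 : P (y1 + c) - P y1 - (D (y1 + c) - D y1) = m)
    (hs : ∀ x, y1 < x → x < y2 → m + 1 ≤ P (x + c) - P x - (D (x + c) - D x))
    (h12 : y2 ≤ y1 + c) (hr1 : y1 + c + 1 ≤ r) (hr2 : r < y2 + c) (hr : D r < D (r + 1)) :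
    ∃ D', Opt n c m P D' T ∧ ∀ x, y1 ≤ x → x ≤ y1 + n →
      D' x = if y1 + c < x ∧ x ≤ r then D x + 1 else D x := by
  obtain ⟨hD1, hD2⟩ := hD
  obtain ⟨f, hf⟩ : ∃ f : ℤ → ℤ, ∀ x, f x = if y1 + c < x ∧ x ≤ r then D x + 1 else D x :=
    ⟨_, fun _ => rfl⟩
  have hf1 : ∀ x, y1 + c < x → x ≤ r → f x = D x + 1 := fun x h1 h2 => by
    rw [hf, if_pos ⟨h1, h2⟩]
  have hf2 : ∀ x, (x ≤ y1 + c ∨ r < x) → f x = D x := fun x hx => by rw [hf, if_neg (by omega)]
  have hf3 : ∀ x, f x ≤ D x + 1 := fun x => by rw [hf]; split_ifs <;> omega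
  have hf4 : ∀ x, D x ≤ f x := fun x => by rw [hf]; split_ifs <;> omega
  have e1 : f (y1 + n) - f y1 = T := by
    rw [hf2 y1 (by omega), hf2 _ (by omega), hD1.per]
    ring
  have hK : D (y1 + c + 1) - D (y1 + c) + 1 ≤ P (y1 + c + 1) - P (y1 + c) := by
    have g1 := hs (y1 + 1) (by omega) (by omega)
    have g2 := hD1.le y1
    rw [show y1 + 1 + c = y1 + c + 1 by ring] at g1
    linarith
  have k1 : ∀ x, y1 ≤ x → x < y1 + n → f x ≤ f (x + 1) ∧ f (x + 1) - f x ≤ P (x + 1) - P x := by
    intro x hx1 hx2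
    have g1 := hD1.step x
    have g2 := hD1.le x
    rcases lt_trichotomy x (y1 + c) with h | h | h
    · rw [hf2 x (by omega), hf2 (x + 1) (by omega)]
      exact ⟨g1, g2⟩
    · rw [hf2 x (by omega), hf1 (x + 1) (by omega) (by omega), h]
      rw [h] at g1
      constructor <;> linarith
    · rcases lt_trichotomy x r with h' | h' | h'
      · rw [hf1 x (by omega) (by omega), hf1 (x + 1) (by omega) (by omega)]
        constructor <;> linarith
      · rw [hf1 x (by omega) (by omega), hf2 (x + 1) (by omega), h']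
        rw [h'] at g2
        constructor <;> linarith
      · rw [hf2 x (by omega), hf2 (x + 1) (by omega)]
        exact ⟨g1, g2⟩
  have k2 : ∀ x, y1 ≤ x → x < y1 + n → x + c ≤ y1 + n →
      m ≤ P (x + c) - P x - (f (x + c) - f x) := by
    intro x hx1 hx2 hx3
    have g1 := hf4 x
    by_cases hx : y1 + c < x + c ∧ x + c ≤ r
    · have := hs x (by omega) (by omega)
      have := hf3 (x + c)
      linarith
    · rw [hf2 (x + c) (by omega)]
      have := hD1.win x
      linarith
  have k3 : ∀ x, y1 ≤ x → x < y1 + n → y1 + n < x + c →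
      m ≤ P (x + c) - P x - (f (x + c - n) + (f (y1 + n) - f y1) - f x) := by
    intro x hx1 hx2 hx3
    rw [e1, hf2 (x + c - n) (by omega)]
    have g1 := hf4 x
    have g2 := hD1.per (x + c - n)
    rw [sub_add_cancel] at g2
    have := hD1.win x
    linarith
  obtain ⟨D', hD'1, hD'2⟩ := pack_ext (by omega) hc (by omega) hP y1 f k1 k2 k3
  rw [e1] at hD'1
  exact ⟨D', ⟨hD'1, hD2⟩, fun x h1 h2 => by rw [hD'2 x h1 h2, hf]⟩

theorem slide {n c m S T : ℤ} (hc : 1 ≤ c) (h2c : 2 * c ≤ n) {P : ℤ → ℤ}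
    (hP : ∀ x, P (x + n) = P x + S) (a : ℤ) (ha : P (a + c) - P a = m) (N : ℕ) :
    ∀ (D : ℤ → ℤ) (y1 y2 : ℤ), Opt n c m P D T → a ≤ y1 → y1 < y2 → y2 ≤ a + n →
      P (y1 + c) - P y1 - (D (y1 + c) - D y1) = m → P (y2 + c) - P y2 - (D (y2 + c) - D y2) = m →
      D y1 + D (y1 + c + 1) - 2 * D a - T < 0 → 0 < D (y2 - 1) + D (y2 + c) - 2 * D a - T →
      meas c m P D y1 y2 ≤ N →
      ∃ D' y, Opt n c m P D' T ∧ a ≤ y ∧ y ≤ a + n ∧
        P (y + c) - P y - (D' (y + c) - D' y) = m ∧ D' (y - 1) + D' (y + c) - 2 * D' a - T ≤ 0 ∧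
        0 ≤ D' y + D' (y + c + 1) - 2 * D' a - T := by
  induction N with
  | zero =>
    intro D y1 y2 hD h1 h2 h3 _ _ _ _ h8
    have := meas_nonneg hD.1 h2
    push_cast at h8
    omega
  | succ N ih =>
    intro D y1 y2 hD h1 h2 h3 ht1 ht2 h6 h7 h8
    push_cast at h8
    have hDm : ∀ {x y : ℤ}, x ≤ y → D x ≤ D y := fun h => mono_of_step hD.1.step h
    by_cases hex : ∃ y, y1 < y ∧ y < y2 ∧ P (y + c) - P y - (D (y + c) - D y) = m
    · obtain ⟨y, hy1, hy2, hy⟩ := hex
      rcases lt_or_ge (D y + D (y + c + 1) - 2 * D a - T) 0 with h | h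
      · refine ih D y y2 hD (by omega) hy2 h3 hy ht2 h h7 ?_
        have := meas_mono hD.1 (show y1 ≤ y by omega) le_rfl (show y2 - y < y2 - y1 by omega)
        omega
      · rcases le_or_gt (D (y - 1) + D (y + c) - 2 * D a - T) 0 with h' | h'
        · exact ⟨D, y, hD, by omega, by omega, hy, h', h⟩
        · refine ih D y1 y hD h1 hy1 (by omega) ht1 hy h6 h' ?_
          have := meas_mono hD.1 le_rfl hy2.le (show y - y1 < y2 - y1 by omega)
          omega
    · push Not at hex
      have hs : ∀ x, y1 < x → x < y2 → m + 1 ≤ P (x + c) - P x - (D (x + c) - D x) := by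
        intro x hx1 hx2
        have g1 := hD.1.win x
        have g2 := hex x hx1 hx2
        omega
      have h12 : y2 ≤ y1 + c := by
        by_contra hcon
        exact zone (by omega) hc (by omega) hP hD ht1 fun x hx1 hx2 => hs x hx1 (by omega)
      have hex2 : (D y1 < D (y2 - 1)) ∨ D (y1 + c + 1) < D (y2 + c) := by
        by_contra hcon
        push Not at hcon
        linarith
      have hDper := hD.1.per
      rcases hex2 with h | h
      · -- exchange A
        have hlt : y1 < y2 - 1 := by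
          by_contra hcon
          have := hDm (show y2 - 1 ≤ y1 by omega)
          omega
        obtain ⟨l, hl1, hl2, hl⟩ := jump h hlt
        obtain ⟨D', hD'1, hD'2⟩ := exchA hc h2c hP hD ht2 hs h12 hl1 (by omega) hl
        have e1 : D' y1 = D y1 := by rw [hD'2 _ (by omega) (by omega), if_neg (by omega)]
        have e2 : D' (y1 + c) = D (y1 + c) := by
          rw [hD'2 _ (by omega) (by omega), if_neg (by omega)]
        have e3 : D' (y1 + c + 1) = D (y1 + c + 1) := by
          rw [hD'2 _ (by omega) (by omega), if_neg (by omega)]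
        have e4 : D' y2 = D y2 := by rw [hD'2 _ (by omega) (by omega), if_neg (by omega)]
        have e5 : D' (y2 + c) = D (y2 + c) := by
          rw [hD'2 _ (by omega) (by omega), if_neg (by omega)]
        have e6 : D' (y2 - 1) = D (y2 - 1) - 1 := by
          rw [hD'2 _ (by omega) (by omega), if_pos (by omega)]
        have e7 : D' (a + n) = D (a + n) := by
          rw [hD'2 _ (by omega) (by omega), if_neg (by omega)]
        have e8 : D' a = D a := by
          have g1 := hDper a
          have g2 := hD'1.1.per a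
          linarith
        rcases lt_or_ge 0 (D' (y2 - 1) + D' (y2 + c) - 2 * D' a - T) with h9 | h9
        · refine ih D' y1 y2 hD'1 h1 h2 h3 (by rw [e1, e2]; exact ht1) (by rw [e4, e5]; exact ht2)
            (by rw [e1, e3, e8]; exact h6) h9 ?_
          have : meas c m P D' y1 y2 < meas c m P D y1 y2 := by
            refine meas_lt (z := y2 - 1) (fun x hx1 hx2 => ?_) (by omega) (by omega) ?_
            · rw [hD'2 (x + c) (by omega) (by omega), if_neg (by omega),
                hD'2 x (by omega) (by omega)]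
              split_ifs <;> omega
            · rw [hD'2 (y2 - 1 + c) (by omega) (by omega), if_neg (by omega), e6]
              omega
          omega
        · refine ⟨D', y2, hD'1, by omega, h3, by rw [e4, e5]; exact ht2, h9, ?_⟩
          have g1 := hD'1.1.step (y2 - 1)
          rw [sub_add_cancel] at g1
          have g2 := hD'1.1.step (y2 + c)
          rw [e6, e5, e8] at *
          linarith
      · -- exchange B
        have hlt : y1 + c + 1 < y2 + c := by
          by_contra hcon
          have := hDm (show y2 + c ≤ y1 + c + 1 by omega)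
          omega
        obtain ⟨r, hr1, hr2, hr⟩ := jump h hlt
        obtain ⟨D', hD'1, hD'2⟩ := exchB hc h2c hP hD ht1 hs h12 hr1 hr2 hr
        have hra : r < a + n := by
          by_contra hcon
          have g1 := hDm (show r + 1 ≤ a + n + c by omega)
          have g2 := hDm (show a + n ≤ r by omega)
          have g3 := hD.1.win a
          have g4 := hDper a
          have g5 := hDper (a + c)
          rw [show a + c + n = a + n + c by ring] at g5
          omega
        have e1 : D' y1 = D y1 := by rw [hD'2 _ (by omega) (by omega), if_neg (by omega)]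
        have e2 : D' (y1 + c) = D (y1 + c) := by
          rw [hD'2 _ (by omega) (by omega), if_neg (by omega)]
        have e3 : D' (y1 + c + 1) = D (y1 + c + 1) + 1 := by
          rw [hD'2 _ (by omega) (by omega), if_pos (by omega)]
        have e4 : D' y2 = D y2 := by rw [hD'2 _ (by omega) (by omega), if_neg (by omega)]
        have e5 : D' (y2 + c) = D (y2 + c) := by
          rw [hD'2 _ (by omega) (by omega), if_neg (by omega)]
        have e6 : D' (y2 - 1) = D (y2 - 1) := by
          rw [hD'2 _ (by omega) (by omega), if_neg (by omega)]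
        have e7 : D' (a + n) = D (a + n) := by
          rw [hD'2 _ (by omega) (by omega), if_neg (by omega)]
        have e8 : D' a = D a := by
          have g1 := hDper a
          have g2 := hD'1.1.per a
          linarith
        rcases lt_or_ge (D' y1 + D' (y1 + c + 1) - 2 * D' a - T) 0 with h9 | h9
        · refine ih D' y1 y2 hD'1 h1 h2 h3 (by rw [e1, e2]; exact ht1) (by rw [e4, e5]; exact ht2)
            h9 (by rw [e6, e5, e8]; exact h7) ?_
          have : meas c m P D' y1 y2 < meas c m P D y1 y2 := by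
            refine meas_lt (z := y1 + 1) (fun x hx1 hx2 => ?_) (by omega) (by omega) ?_
            · rw [hD'2 (x + c) (by omega) (by omega), hD'2 x (by omega) (by omega),
                if_neg (show ¬ (y1 + c < x ∧ x ≤ r) by omega)]
              split_ifs <;> omega
            · rw [hD'2 (y1 + 1 + c) (by omega) (by omega), if_pos (by omega),
                hD'2 (y1 + 1) (by omega) (by omega),
                if_neg (show ¬ (y1 + c < y1 + 1 ∧ y1 + 1 ≤ r) by omega)]
              omega
          omega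
        · refine ⟨D', y1, hD'1, h1, by omega, by rw [e1, e2]; exact ht1, ?_, h9⟩
          have g1 := hD'1.1.step (y1 - 1)
          rw [sub_add_cancel] at g1
          have g2 := hD'1.1.step (y1 + c)
          rw [e1, e3, e8] at *
          linarith

end Pool.Agent.W_30d1b9_h71
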