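import Pool.Agent.W_30d1b9_h71.Abs

/-!
# MP_30d1b9_co, Circular Nim, the positive half: the move to a balanced position
-/

namespace Pool.Agent.W_30d1b9_h71

theorem exists_opt {n c m S : ℤ} {P : ℤ → ℤ} (hPs : ∀ x, P x ≤ P (x + 1))
    (hP : ∀ x, P (x + n) = P x + S) (hn : 0 < n) (hm : ∀ x, m ≤ P (x + c) - P x) :
    ∃ D T, Opt n c m P D T := by
  have hle : ∀ D T, Pack n c m P D T → T ≤ S := by
    intro D T hD
    have h1 : ∀ k : ℕ, D k - D 0 ≤ P k - P 0 := by
      intro k
      induction k with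
      | zero => simp
      | succ k ih =>
        have := hD.le k
        push_cast
        linarith
    have h2 := h1 n.toNat
    have e : ((n.toNat : ℕ) : ℤ) = 0 + n := by omega
    rw [e, hD.per, hP] at h2
    linarith
  obtain ⟨T, ⟨D, hT1⟩, hT2⟩ := Int.exists_greatest_of_bdd
    (P := fun T => ∃ D, Pack n c m P D T) ⟨S, fun T ⟨D, hD⟩ => hle D T hD⟩
    ⟨0, fun _ => 0, ⟨fun _ => le_rfl, fun x => by have := hPs x; linarith, fun _ => by simp,
      fun x => by have := hm x; linarith⟩⟩
  exact ⟨D, T, hT1, fun E T' hE => hT2 T' ⟨E, hE⟩⟩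

theorem exists_slide {n c m S : ℤ} (hc : 1 ≤ c) (h2c : 2 * c ≤ n) {P : ℤ → ℤ}
    (hPs : ∀ x, P x ≤ P (x + 1)) (hP : ∀ x, P (x + n) = P x + S)
    (hm : ∀ x, m ≤ P (x + c) - P x) (a : ℤ) (ha : P (a + c) - P a = m) :
    ∃ D T y, Opt n c m P D T ∧ a ≤ y ∧ y ≤ a + n ∧
      P (y + c) - P y - (D (y + c) - D y) = m ∧ D (y - 1) + D (y + c) - 2 * D a - T ≤ 0 ∧
      0 ≤ D y + D (y + c + 1) - 2 * D a - T := by
  obtain ⟨D, T, hD⟩ := exists_opt hPs hP (by omega) hm
  have hDm : ∀ {x y : ℤ}, x ≤ y → D x ≤ D y := fun h => mono_of_step hD.1.step h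
  have hDa : D (a + c) = D a := by
    have h1 := hD.1.win a
    have h2 := hDm (show a ≤ a + c by omega)
    linarith
  have hT : 0 ≤ T := by
    have h1 := hD.1.per a
    have h2 := hDm (show a ≤ a + n by omega)
    linarith
  have hta : P (a + c) - P a - (D (a + c) - D a) = m := by rw [hDa]; linarith
  have ean : D (a + n) = D a + T := hD.1.per a
  have eanc : D (a + n + c) = D a + T := by
    have h1 := hD.1.per (a + c)
    rw [show a + c + n = a + n + c by ring] at h1
    rw [h1, hDa]
  have htan : P (a + n + c) - P (a + n) - (D (a + n + c) - D (a + n)) = m := by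
    have h1 := hP (a + c)
    rw [show a + c + n = a + n + c by ring] at h1
    rw [h1, hP a, ean, eanc]
    linarith
  rcases lt_or_ge (D a + D (a + c + 1) - 2 * D a - T) 0 with h1 | h1
  · rcases lt_or_ge 0 (D (a + n - 1) + D (a + n + c) - 2 * D a - T) with h2 | h2
    · obtain ⟨D', y, h⟩ := slide hc h2c hP a ha (meas c m P D a (a + n)).toNat D a (a + n) hD
        le_rfl (by omega) le_rfl hta htan h1 h2 (Int.self_le_toNat _)
      exact ⟨D', T, y, h⟩
    · refine ⟨D, T, a + n, hD, by omega, le_rfl, htan, h2, ?_⟩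
      have h3 := hDm (show a + n + c ≤ a + n + c + 1 by omega)
      linarith
  · refine ⟨D, T, a, hD, le_rfl, by omega, hta, ?_, h1⟩
    have h3 := hDm (show a - 1 ≤ a by omega)
    linarith

/-- the absorbing property -/
theorem absorb {n c m S : ℤ} (hc : 1 ≤ c) (h2c : 2 * c ≤ n) {P : ℤ → ℤ}
    (hPs : ∀ x, P x ≤ P (x + 1)) (hP : ∀ x, P (x + n) = P x + S)
    (hm : ∀ x, m ≤ P (x + c) - P x) (a : ℤ) (ha : P (a + c) - P a = m) :
    Bal n c P ∨ ∃ (Q : ℤ → ℤ) (S' w : ℤ), (∀ x, Q x ≤ Q (x + 1)) ∧
      (∀ x, Q (x + 1) - Q x ≤ P (x + 1) - P x) ∧ (∀ x, Q (x + n) = Q x + S') ∧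
      (∀ x, w + c < x → x < w + n → Q (x + 1) - Q x = P (x + 1) - P x) ∧ S' < S ∧ Bal n c Q := by
  obtain ⟨D, T, y, ⟨hD1, hD2⟩, hy1, hy2, hty, hF1, hF2⟩ := exists_slide hc h2c hPs hP hm a ha
  have hDm : ∀ {x y : ℤ}, x ≤ y → D x ≤ D y := fun h => mono_of_step hD1.step h
  have hDa : D (a + c) = D a := by
    have h1 := hD1.win a
    have h2 := hDm (show a ≤ a + c by omega)
    linarith
  have ean : D (a + n) = D a + T := hD1.per a
  have eanc : D (a + n + c) = D a + T := by
    have h1 := hD1.per (a + c)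
    rw [show a + c + n = a + n + c by ring] at h1
    rw [h1, hDa]
  obtain ⟨L, hL⟩ : ∃ L, L = D y - D a := ⟨_, rfl⟩
  obtain ⟨R, hR⟩ : ∃ R, R = D a + T - D (y + c) := ⟨_, rfl⟩
  obtain ⟨h, hh⟩ : ∃ h, h = min L R := ⟨_, rfl⟩
  have hL0 : 0 ≤ L := by have := hDm hy1; omega
  have hR0 : 0 ≤ R := by have := hDm (show y + c ≤ a + n + c by omega); omega
  have hLR : L + R ≤ T := by have := hDm (show y ≤ y + c by omega); omega
  obtain ⟨f, hf⟩ : ∃ f : ℤ → ℤ, ∀ x, f x = min (D x - D a) h + max 0 (D x - D a - T + h) :=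
    ⟨_, fun _ => rfl⟩
  have fa : f a = 0 := by rw [hf]; omega
  have fan : f (a + n) = 2 * h := by rw [hf, ean]; omega
  obtain ⟨E, hE1, hE2⟩ := exists_ext (show 0 < n by omega) a f
  rw [fa, fan, sub_zero] at hE1
  -- steps
  have hstep : ∀ x, E x ≤ E (x + 1) ∧ E (x + 1) - E x ≤ D (x + 1) - D x := by
    refine reduce (show 0 < n by omega) a (fun x => ?_) fun x hx1 hx2 => ?_
    · have g1 := hE1 x
      have g2 := hE1 (x + 1)
      have g3 := hD1.per x
      have g4 := hD1.per (x + 1)
      rw [add_right_comm] at g2 g4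
      rw [g1, g2, g3, g4]
      constructor <;> rintro ⟨g5, g6⟩ <;> constructor <;> linarith
    · rw [hE2 x hx1 hx2.le, hE2 (x + 1) (by omega) (by omega), hf, hf]
      have g1 := hD1.step x
      omega
  -- equal steps
  have hlow : ∀ x, a ≤ x → x ≤ a + n → D x - D a ≤ h → E x = D x - D a := by
    intro x h1 h2 h3
    rw [hE2 x h1 h2, hf]
    omega
  have hhigh : ∀ x, a ≤ x → x ≤ a + n → T - h ≤ D x - D a → E x = D x - D a - T + 2 * h := by
    intro x h1 h2 h3
    rw [hE2 x h1 h2, hf]
    omega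
  have heq : ∀ w, a - 1 ≤ w → w ≤ a + n → D w - D a ≤ h → T - h ≤ D (w + c + 1) - D a →
      ∀ x, w + c < x → x < w + n → E (x + 1) - E x = D (x + 1) - D x := by
    intro w hw1 hw2 hw3 hw4 x hx1 hx2
    rcases lt_or_ge x (a + n) with h1 | h1
    · have g1 := hDm (show w + c + 1 ≤ x by omega)
      have g2 := hDm (show x ≤ x + 1 by omega)
      rw [hhigh x (by omega) (by omega) (by omega),
        hhigh (x + 1) (by omega) (by omega) (by omega)]
      ring
    · have g1 := hE1 (x - n)
      have g2 := hE1 (x - n + 1)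
      have g3 := hD1.per (x - n)
      have g4 := hD1.per (x - n + 1)
      rw [show x - n + 1 + n = x + 1 by ring] at g2 g4
      rw [sub_add_cancel] at g1 g3
      have g5 := hDm (show x - n ≤ w by omega)
      have g6 := hDm (show x - n + 1 ≤ w by omega)
      rw [hlow (x - n) (by omega) (by omega) (by omega)] at g1
      rw [hlow (x - n + 1) (by omega) (by omega) (by omega)] at g2
      linarith
  -- the value at `y`
  have hEy : E y = h := by
    rw [hE2 y hy1 hy2, hf]
    omega
  have hEyc : E (y + c) = h := by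
    rcases le_or_gt (y + c) (a + n) with h1 | h1
    · rw [hE2 _ (by omega) h1, hf]
      have g1 := hDm (show y ≤ y + c by omega)
      omega
    · have g1 := hE1 (y + c - n)
      rw [sub_add_cancel] at g1
      rw [g1, hE2 (y + c - n) (by omega) (by omega), hf]
      have g2 := hDm (show a ≤ y + c - n by omega)
      have g3 := hDm (show y + c - n ≤ a + c by omega)
      have g4 := hDm (show a + n ≤ y + c by omega)
      omega
  have hEa : E a = 0 := by rw [hE2 a le_rfl (by omega), fa]
  have hEac : E (a + c) = 0 := by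
    rw [hE2 (a + c) (by omega) (by omega), hf, hDa]
    omega
  have hEm : ∀ {x y : ℤ}, x ≤ y → E x ≤ E y := fun h => mono_of_step (fun x => (hstep x).1) h
  -- balanced
  have hBal : Bal n c (fun x => P x - D x + E x) := by
    refine ⟨m, h, a, y, E, fun x => ?_, ?_, ?_, ⟨⟨fun x => (hstep x).1, fun x => ?_, hE1,
      fun x => ?_⟩, fun E' T' hE' => ?_⟩, hy1, hy2, ?_⟩
    · have g1 := hD1.win x
      have g2 := hEm (show x ≤ x + c by omega)
      linarith
    · linarith
    · linarith
    · have := hD1.le x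
      linarith
    · have := hD1.win x
      linarith
    · have g1 : Pack n c m P (fun x => E' x + (D x - E x)) (T' + (T - 2 * h)) := by
        refine ⟨fun x => ?_, fun x => ?_, fun x => ?_, fun x => ?_⟩
        · have := hE'.step x
          have := hstep x
          linarith
        · have := hE'.le x
          beta_reduce at this
          linarith
        · have e1 := hE'.per x
          have e2 := hD1.per x
          have e3 := hE1 x

          linarith
        · have := hE'.win x
          beta_reduce at this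
          linarith
      have g2 := hD2 _ _ g1
      linarith
    · rw [hEa, hEy, zero_add]
  rcases eq_or_ne T (2 * h) with hT | hT
  · -- already balanced
    left
    refine ⟨m, h, a, y, D, hm, ha, ?_, ⟨by rw [← hT]; exact hD1, by rw [← hT]; exact hD2⟩,
      hy1, hy2, ?_⟩
    · have : D (y + c) - D y = 0 := by omega
      linarith
    · omega
  · right
    have hS : 2 * h < T := by omega
    have key : ∀ w, a - 1 ≤ w → w ≤ a + n → D w - D a ≤ h → T - h ≤ D (w + c + 1) - D a →
      ∃ (Q : ℤ → ℤ) (S' w : ℤ), (∀ x, Q x ≤ Q (x + 1)) ∧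
      (∀ x, Q (x + 1) - Q x ≤ P (x + 1) - P x) ∧ (∀ x, Q (x + n) = Q x + S') ∧
      (∀ x, w + c < x → x < w + n → Q (x + 1) - Q x = P (x + 1) - P x) ∧ S' < S ∧ Bal n c Q := by
      intro w hw1 hw2 hw3 hw4
      refine ⟨fun x => P x - D x + E x, S - T + 2 * h, w, fun x => ?_, fun x => ?_, fun x => ?_,
        fun x hx1 hx2 => ?_, by linarith, hBal⟩
      · have := hD1.le x
        have := (hstep x).1
        linarith
      · have := (hstep x).2
        linarith
      · have e1 := hP x
        have e2 := hD1.per x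
        have e3 := hE1 x
        beta_reduce
        linarith
      · have := heq w hw1 hw2 hw3 hw4 x hx1 hx2
        beta_reduce
        linarith
    rcases le_or_gt L R with h1 | h1
    · refine key y (by omega) hy2 (by omega) (by omega)
    · refine key (y - 1) (by omega) (by omega) (by omega) ?_
      rw [show y - 1 + c + 1 = y + c by ring]
      omega

end Pool.Agent.W_30d1b9_h71
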