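import Pool.Agent.W_30d1b9_h71.Ind2

/-!
# MP_30d1b9_co, Circular Nim, the positive half: no move between balanced positions
-/

namespace Pool.Agent.W_30d1b9_h71

theorem near {n c ρ w : ℤ} {R : ℤ → ℤ} (hc : 1 ≤ c) (h3c : 3 * c ≤ n) (hH : Hump n c R ρ w)
    {b : ℤ} (hb : 0 < R (b + c) - R b) : ∃ t, w - c + 1 ≤ b + n * t ∧ b + n * t ≤ w + c := by
  obtain ⟨t, ht1, ht2⟩ := rep (show 0 < n by omega) b (w - c + 1)
  refine ⟨t, ht1, ?_⟩
  by_contra hcon
  have e1 := per_mul hH.per t b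
  have e2 := per_mul hH.per t (b + c)
  rw [add_right_comm] at e2
  rw [hH.hi (x := b + n * t) (by omega) (by omega)] at e1
  rw [hH.hi (x := b + n * t + c) (by omega) (by omega)] at e2
  omega

/-- no move between balanced positions -/
theorem indep {n c S S' w : ℤ} {P P' : ℤ → ℤ} (hc : 1 ≤ c) (h3c : 3 * c ≤ n)
    (h3c' : n ≤ 3 * c + 2) (hP's : ∀ x, P' x ≤ P' (x + 1))
    (hP : ∀ x, P (x + n) = P x + S) (hP' : ∀ x, P' (x + n) = P' x + S')
    (hle : ∀ x, P' (x + 1) - P' x ≤ P (x + 1) - P x)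
    (hw : ∀ x, w + c < x → x < w + n → P' (x + 1) - P' x = P (x + 1) - P x) (hS : S' < S)
    (hB : Bal n c P) (hB' : Bal n c P') : False := by
  obtain ⟨m, g, a1, a2, D, hm, ha1, ha2, hD, h12, h21, hDa⟩ := hB
  obtain ⟨m', g', b1, b2, D', hm', hb1, hb2, hD', hb12, hb21, hDb⟩ := hB'
  obtain ⟨R, hR⟩ : ∃ R : ℤ → ℤ, ∀ x, R x = P x - P' x := ⟨_, fun _ => rfl⟩
  have hH : Hump n c R (S - S') w := by
    refine ⟨fun x => ?_, fun x => ?_, fun x h1 h2 => ?_⟩
    · have := hle x
      rw [hR, hR]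
      omega
    · rw [hR, hR, hP, hP']
      ring
    · have := hw x h1 h2
      rw [hR, hR]
      omega
  have hn : 0 < n := by omega
  have hmm : m' ≤ m := by
    have g1 := hm' a1
    have g2 := mono_of_step hH.step (show a1 ≤ a1 + c by omega)
    have g3 := hR a1
    have g4 := hR (a1 + c)
    omega
  rcases lt_or_eq_of_le hmm with h | h
  · have per1 : ∀ t x, P' (x + n * t + c) - P' (x + n * t) = P' (x + c) - P' x := by
      intro t x
      have e1 := per_mul hP' t x
      have e2 := per_mul hP' t (x + c)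
      rw [add_right_comm] at e2
      rw [e1, e2]
      ring
    have per2 : ∀ t x, P (x + n * t + c) - P (x + n * t) = P (x + c) - P x := by
      intro t x
      have e1 := per_mul hP t x
      have e2 := per_mul hP t (x + c)
      rw [add_right_comm] at e2
      rw [e1, e2]
      ring
    have pos : ∀ b, P' (b + c) - P' b = m' → 0 < R (b + c) - R b := by
      intro b hb
      have g1 := hm b
      have g3 := hR b
      have g4 := hR (b + c)
      omega
    -- representatives of `b1`, `b2`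
    obtain ⟨B1, B2, hB0, hB12, hB3, hBD, hBP1, hBP2⟩ : ∃ B1 B2, w - c + 1 ≤ B1 ∧ B1 ≤ B2 ∧
        B2 ≤ w + c ∧ D' B2 = D' B1 + g' ∧ P' (B1 + c) - P' B1 = m' ∧
        P' (B2 + c) - P' B2 = m' := by
      obtain ⟨s, hs1, hs2⟩ := near hc h3c hH (pos b1 hb1)
      obtain ⟨t, ht1, ht2⟩ := near hc h3c hH (pos b2 hb2)
      obtain ⟨k1, k2⟩ := two_reps hD'.1.step hD'.1.per hDb s t hn (by omega) (by omega)
      rcases le_total (b1 + n * s) (b2 + n * t) with h1 | h1
      · exact ⟨_, _, hs1, h1, ht2, k1 h1, by rw [per1]; exact hb1, by rw [per1]; exact hb2⟩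
      · exact ⟨_, _, ht1, h1, hs2, k2 h1, by rw [per1]; exact hb2, by rw [per1]; exact hb1⟩
    -- representatives of `a1`, `a2`
    obtain ⟨A1, A2, hA1, hA2, hA12, hAD, hAP1, hAP2⟩ : ∃ A1 A2, A1 ≤ w ∧ w < A2 ∧
        A2 ≤ A1 + n ∧ D A2 = D A1 + g ∧ P (A1 + c) - P A1 = m ∧
        P (A2 + c) - P A2 = m := by
      obtain ⟨t, ht1, ht2⟩ := rep hn a1 (w - n + 1)
      have e1 := per_mul hD.1.per t a1
      have e2 := per_mul hD.1.per t a2
      have e3 := hD.1.per (a1 + n * t)
      rcases lt_or_ge w (a2 + n * t) with h1 | h1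
      · exact ⟨a1 + n * t, a2 + n * t, by omega, h1, by omega, by rw [e1, e2, hDa]; ring,
          by rw [per2]; exact ha1, by rw [per2]; exact ha2⟩
      · refine ⟨a2 + n * t, a1 + n * t + n, h1, by omega, by omega,
          by rw [e3, e1, e2, hDa]; ring, by rw [per2]; exact ha2, ?_⟩
        have g1 := hP (a1 + n * t)
        have g2 := hP (a1 + n * t + c)
        rw [show a1 + n * t + c + n = a1 + n * t + n + c by ring] at g2
        rw [g1, g2]
        have := per2 t a1
        omega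
    have hdat : Dat n c m m' S S' (S - S') w g g' B1 B2 P P' R D D' :=
      ⟨hc, h3c, hP's, hP, hP', hR, hH, h, hm, hm', hD, hD', hBP1, hBP2, hBD, hB0, hB12, hB3⟩
    exact hdat.false hA1 hA2 hA12 hAD hAP1 hAP2
  · subst h
    exact case_eq hc h3c h3c' hP hP' hR hH (by omega) hm' ha1 ha2 h12 h21 hD hDa hb1 hb2 hD' hDb
      hb12 hb21

end Pool.Agent.W_30d1b9_h71
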