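import Pool.Agent.W_30d1b9_h71.Cum

/-!
# MP_30d1b9_co, Circular Nim, the positive half: adding one token to every stack
-/

namespace Pool.Agent.W_30d1b9_h71

theorem env {n c m S T : ℤ} (hc : 1 ≤ c) (hm : 0 ≤ m) {P : ℤ → ℤ}
    (hPs : ∀ x, P x ≤ P (x + 1)) (hP : ∀ x, P (x + n) = P x + S) {D : ℤ → ℤ}
    (hD : Pack n c (m + c) (fun x => P x + x) D T) :
    ∃ D', Pack n c m P D' T ∧ ∀ a, P (a + c) - P a = m → D' a = D a := by
  obtain ⟨E, hE⟩ : ∃ E : ℤ → ℤ, ∀ x, E x = P x - D x := ⟨_, fun _ => rfl⟩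
  have hwin : ∀ x, m ≤ E (x + c) - E x := fun x => by
    have := hD.win x
    rw [hE, hE]
    beta_reduce at this
    linarith
  have hmax : ∀ x, ∃ y, (x - c < y ∧ y ≤ x) ∧ ∀ z, x - c < z → z ≤ x → E z ≤ E y := by
    intro x
    obtain ⟨y, hy, h⟩ := Finset.exists_max_image (Finset.Ioc (x - c) x) E
      ⟨x, Finset.mem_Ioc.2 ⟨by omega, le_rfl⟩⟩
    exact ⟨y, Finset.mem_Ioc.1 hy, fun z h1 h2 => h z (Finset.mem_Ioc.2 ⟨h1, h2⟩)⟩
  choose Y hY1 hY2 using hmax
  have hEper : ∀ x, E (x + n) = E x + (S - T) := fun x => by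
    rw [hE, hE, hP, hD.per]
    ring
  refine ⟨fun x => P x - E (Y x), ⟨fun x => ?_, fun x => ?_, fun x => ?_, fun x => ?_⟩,
    fun a ha => ?_⟩
  · rcases lt_or_eq_of_le (hY1 (x + 1)).2 with h | h
    · have h1 := hY2 x (Y (x + 1)) (by have := (hY1 (x + 1)).1; omega) (by omega)
      have h2 := hPs x
      linarith
    · have h1 := hY2 x x (by omega) le_rfl
      have h2 := hD.step x
      have h3 : E (Y (x + 1)) = P (x + 1) - D (x + 1) := by rw [h, hE]
      have h4 := hE x
      linarith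
  · have h0 := hY1 x
    rcases lt_or_ge (x + 1 - c) (Y x) with h | h
    · have h1 := hY2 (x + 1) (Y x) h (by omega)
      linarith
    · have h1 : Y x + c = x + 1 := by omega
      have h2 := hwin (Y x)
      rw [h1] at h2
      have h3 := hY2 (x + 1) (x + 1) (by omega) le_rfl
      linarith
  · have h1 := hY2 (x + n) (Y x + n) (by have := (hY1 x).1; omega) (by have := (hY1 x).2; omega)
    have h2 := hY2 x (Y (x + n) - n) (by have := (hY1 (x + n)).1; omega)
      (by have := (hY1 (x + n)).2; omega)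
    have h3 := hEper (Y x)
    have h4 := hEper (Y (x + n) - n)
    rw [sub_add_cancel] at h4
    have h5 := hP x
    linarith
  · have h1 := hwin (Y x)
    have h2 := hY2 (x + c) (Y x + c) (by have := (hY1 x).1; omega) (by have := (hY1 x).2; omega)
    linarith
  · have h0 := hY1 a
    have h1 := hwin (Y a)
    have h2 : D (a + c) ≤ D a := by
      have := hD.win a
      beta_reduce at this
      linarith
    have h3 : E (Y a + c) ≤ E (a + c) := by
      rw [hE, hE]
      have g1 := mono_of_step hD.step (show a ≤ Y a + c by omega)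
      have g2 := mono_of_step hPs (show Y a + c ≤ a + c by omega)
      linarith
    have h4 := hY2 a a (by omega) le_rfl
    have h5 := hE (a + c)
    have h6 := hE a
    have h7 := mono_of_step hD.step (show a ≤ a + c by omega)
    linarith

theorem pack_succ {n c m T : ℤ} {P : ℤ → ℤ} {D : ℤ → ℤ}
    (hD : Pack n c m P D T) : Pack n c (m + c) (fun x => P x + x) D T := by
  refine ⟨hD.step, fun x => ?_, hD.per, fun x => ?_⟩
  · have := hD.le x
    linarith
  · have := hD.win x
    linarith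

theorem bal_succ {n c S : ℤ} (hc : 1 ≤ c) {P : ℤ → ℤ}
    (hPs : ∀ x, P x ≤ P (x + 1)) (hP : ∀ x, P (x + n) = P x + S) :
    Bal n c (fun x => P x + x) ↔ Bal n c P := by
  constructor
  · rintro ⟨m, g, a, b, D, h1, h2, h3, ⟨h4, h4'⟩, h5, h6, h7⟩
    beta_reduce at h1 h2 h3
    have hm : 0 ≤ m - c := by
      have := mono_of_step hPs (show a ≤ a + c by omega)
      linarith
    have e : m = (m - c) + c := by ring
    rw [e] at h4
    obtain ⟨D', h8, h9⟩ := env hc hm hPs hP h4
    refine ⟨m - c, g, a, b, D', fun x => by have := h1 x; linarith, by linarith, by linarith,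
      ⟨h8, fun E T' hE => h4' E T' ?_⟩, h5, h6, ?_⟩
    · rw [e]
      exact pack_succ hE
    · rw [h9 a (by linarith), h9 b (by linarith), h7]
  · rintro ⟨m, g, a, b, D, h1, h2, h3, ⟨h4, h4'⟩, h5, h6, h7⟩
    have hm : 0 ≤ m := by
      have := mono_of_step hPs (show a ≤ a + c by omega)
      linarith
    refine ⟨m + c, g, a, b, D, fun x => by have := h1 x; beta_reduce; linarith,
      by beta_reduce; linarith, by beta_reduce; linarith,
      ⟨pack_succ h4, fun E T' hE => ?_⟩, h5, h6, h7⟩
    obtain ⟨E', h8, -⟩ := env hc hm hPs hP hE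
    exact h4' _ _ h8

end Pool.Agent.W_30d1b9_h71
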