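import Pool.Agent.W_30d1b9_h50.Arc
import Pool.Agent.W_30d1b9_h71.Ind3
import Pool.Agent.W_30d1b9_h71.Abs2
import Pool.Agent.W_30d1b9_h71.One

/-!
# MP_30d1b9_co, Circular Nim, the positive half: positions on `ZMod n` and summation functions
-/

namespace Pool.Agent.W_30d1b9_h71

open Pool.Agent.W_30d1b9_h50

variable {n : ℕ} [NeZero n]

/-- the summation function of a position -/
noncomputable def cum (p : ZMod n → ℕ) (x : ℤ) : ℤ :=
  ∑ j ∈ Finset.Ico 0 x, (p (j : ZMod n) : ℤ) - ∑ j ∈ Finset.Ico x 0, (p (j : ZMod n) : ℤ)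

theorem cum_zero (p : ZMod n → ℕ) : cum p 0 = 0 := by
  unfold cum
  simp

theorem cum_succ (p : ZMod n → ℕ) (x : ℤ) : cum p (x + 1) = cum p x + (p (x : ZMod n) : ℤ) := by
  unfold cum
  rcases le_or_gt 0 x with h | h
  · have e1 : Finset.Ico (x + 1) 0 = ∅ := by
      rw [Finset.Ico_eq_empty_iff]
      omega
    have e2 : Finset.Ico x 0 = ∅ := by
      rw [Finset.Ico_eq_empty_iff]
      omega
    have e3 : Finset.Ico 0 (x + 1) = insert x (Finset.Ico 0 x) := by
      ext y
      simp only [Finset.mem_insert, Finset.mem_Ico]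
      omega
    rw [e1, e2, e3, Finset.sum_insert (by simp)]
    simp
    ring
  · have e1 : Finset.Ico 0 (x + 1) = ∅ := by
      rw [Finset.Ico_eq_empty_iff]
      omega
    have e2 : Finset.Ico 0 x = ∅ := by
      rw [Finset.Ico_eq_empty_iff]
      omega
    have e3 : Finset.Ico x 0 = insert x (Finset.Ico (x + 1) 0) := by
      ext y
      simp only [Finset.mem_insert, Finset.mem_Ico]
      omega
    rw [e1, e2, e3, Finset.sum_insert (by simp)]
    simp

theorem cum_step (p : ZMod n → ℕ) (x : ℤ) : cum p x ≤ cum p (x + 1) := by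
  rw [cum_succ]
  omega

theorem eq_of_steps {f g : ℤ → ℤ} (h : ∀ x, f (x + 1) - f x = g (x + 1) - g x) (x : ℤ) :
    f x = g x + (f 0 - g 0) := by
  induction x using Int.induction_on with
  | zero => ring
  | succ i ih =>
    have := h i
    linarith
  | pred i ih =>
    have := h (-(i : ℤ) - 1)
    rw [sub_add_cancel] at this
    linarith

theorem cum_per (p : ZMod n → ℕ) (x : ℤ) : cum p (x + n) = cum p x + cum p n := by
  have h := eq_of_steps (f := fun x => cum p (x + n)) (g := cum p) (fun x => by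
    have e1 := cum_succ p (x + n)
    have e2 := cum_succ p x
    have e3 : ((x + n : ℤ) : ZMod n) = (x : ZMod n) := by
      push_cast
      simp
    rw [e3] at e1
    beta_reduce
    rw [show x + 1 + (n : ℤ) = x + n + 1 by ring]
    linarith) x
  beta_reduce at h
  rw [h, zero_add, cum_zero]
  ring

theorem exists_min {n c S : ℤ} (hn : 0 < n) {P : ℤ → ℤ} (hP : ∀ x, P (x + n) = P x + S) :
    ∃ m a, (∀ x, m ≤ P (x + c) - P x) ∧ P (a + c) - P a = m := by
  obtain ⟨a, ha, h⟩ := Finset.exists_min_image (Finset.Ico 0 n) (fun x => P (x + c) - P x)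
    ⟨0, Finset.mem_Ico.2 ⟨le_rfl, hn⟩⟩
  refine ⟨P (a + c) - P a, a, ?_, rfl⟩
  refine reduce hn 0 (fun x => ?_) fun x hx1 hx2 => ?_
  · have e1 := hP x
    have e2 := hP (x + c)
    rw [add_right_comm] at e2
    rw [e1, e2]
    constructor <;> intro <;> linarith
  · exact h x (Finset.mem_Ico.2 ⟨hx1, by omega⟩)

theorem bal_const {n c d : ℤ} {P Q : ℤ → ℤ} (hPQ : ∀ x, Q x = P x + d) (h : Bal n c P) :
    Bal n c Q := by
  obtain ⟨m, g, a, b, D, hm, ha, hb, ⟨hD1, hD2⟩, h1, h2, h3⟩ := h
  have key : ∀ E T, Pack n c m Q E T ↔ Pack n c m P E T := by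
    intro E T
    constructor
    · rintro ⟨g1, g2, g3, g4⟩
      exact ⟨g1, fun x => by have := g2 x; rw [hPQ, hPQ] at this; linarith, g3,
        fun x => by have := g4 x; rw [hPQ, hPQ] at this; linarith⟩
    · rintro ⟨g1, g2, g3, g4⟩
      exact ⟨g1, fun x => by have := g2 x; rw [hPQ, hPQ]; linarith, g3,
        fun x => by have := g4 x; rw [hPQ, hPQ]; linarith⟩
  refine ⟨m, g, a, b, D, fun x => ?_, ?_, ?_, ⟨(key _ _).2 hD1, fun E T' hE =>
    hD2 E T' ((key _ _).1 hE)⟩, h1, h2, h3⟩
  · rw [hPQ, hPQ]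
    have := hm x
    linarith
  · rw [hPQ, hPQ]
    linarith
  · rw [hPQ, hPQ]
    linarith

theorem val_int (x : ℤ) : (((x : ZMod n)).val : ℤ) = x % n := ZMod.val_intCast x

/-- the position with a given summation function -/
theorem exists_pos {Q : ℤ → ℤ} {S : ℤ} (hQs : ∀ x, Q x ≤ Q (x + 1))
    (hQ : ∀ x, Q (x + n) = Q x + S) :
    ∃ q : ZMod n → ℕ, ∀ x : ℤ, (q (x : ZMod n) : ℤ) = Q (x + 1) - Q x := by
  refine ⟨fun i => (Q (i.val + 1) - Q i.val).toNat, fun x => ?_⟩
  have h1 := hQs ((x : ZMod n)).val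
  rw [Int.toNat_of_nonneg (by linarith), val_int]
  have e0 : x = x % n + n * (x / n) := (Int.emod_add_mul_ediv x n).symm
  have e1 := per_mul hQ (x / n) (x % n)
  have e2 := per_mul hQ (x / n) (x % n + 1)
  rw [add_right_comm, ← e0] at e2
  rw [← e0] at e1
  linarith

theorem move_cum {c : ℕ} (hcn : c + 1 ≤ n) {p q : ZMod n → ℕ} (h : Move n (c + 1) p q) :
    ∃ w : ℤ, (∀ x, cum q (x + 1) - cum q x ≤ cum p (x + 1) - cum p x) ∧
      (∀ x, w + c < x → x < w + n → cum q (x + 1) - cum q x = cum p (x + 1) - cum p x) ∧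
      cum q n < cum p n := by
  obtain ⟨i, h1, h2, h3⟩ := h
  have hle : ∀ x, cum q (x + 1) - cum q x ≤ cum p (x + 1) - cum p x := fun x => by
    rw [cum_succ, cum_succ]
    have := h2 (x : ZMod n)
    omega
  refine ⟨(i.val : ℤ), hle, fun x hx1 hx2 => ?_, ?_⟩
  · rw [cum_succ, cum_succ]
    have h4 : (x : ZMod n) ∉ window n (c + 1) i := by
      rw [mem_window hcn]
      have e : (x : ZMod n) - i = ((x - (i.val : ℤ) : ℤ) : ZMod n) := by
        push_cast
        rw [ZMod.natCast_zmod_val]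
      rw [e]
      have e2 := val_int (n := n) (x - (i.val : ℤ))
      rw [Int.emod_eq_of_lt (by omega) (by omega)] at e2
      omega
    rw [h1 _ h4]
    ring
  · obtain ⟨j, hj⟩ : ∃ j, q j ≠ p j := by
      by_contra hcon
      push Not at hcon
      exact h3 (funext hcon)
    have hmono : ∀ x y : ℤ, x ≤ y → cum p x - cum q x ≤ cum p y - cum q y := fun x y hxy =>
      mono_of_step (f := fun x => cum p x - cum q x) (fun x => by
        have := hle x
        beta_reduce
        linarith) hxy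
    have g1 := hmono 0 (j.val : ℤ) (by omega)
    have g2 := hmono ((j.val : ℤ) + 1) (n : ℤ) (by
      have := ZMod.val_lt j
      omega)
    rw [cum_succ, cum_succ] at g2
    have e : (((j.val : ℤ)) : ZMod n) = j := by
      push_cast
      exact ZMod.natCast_zmod_val j
    rw [e] at g2
    rw [cum_zero, cum_zero] at g1
    have := h2 j
    omega

theorem move_of_cum {c : ℕ} (hcn : c + 1 ≤ n) {p q : ZMod n → ℕ} {Q : ℤ → ℤ} {S' w : ℤ}
    (hq : ∀ x : ℤ, (q (x : ZMod n) : ℤ) = Q (x + 1) - Q x)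
    (h1 : ∀ x, Q (x + 1) - Q x ≤ cum p (x + 1) - cum p x) (h2 : ∀ x, Q (x + n) = Q x + S')
    (h3 : ∀ x, w + c < x → x < w + n → Q (x + 1) - Q x = cum p (x + 1) - cum p x)
    (h4 : S' < cum p n) : Move n (c + 1) p q := by
  have hx : ∀ j : ZMod n, (((j.val : ℤ)) : ZMod n) = j := fun j => by
    push_cast
    exact ZMod.natCast_zmod_val j
  refine ⟨(w : ZMod n), fun j hj => ?_, fun j => ?_, fun he => ?_⟩
  · rw [mem_window hcn] at hj
    have h5 := ZMod.val_lt (j - (w : ZMod n))
    obtain ⟨x, hxd⟩ : ∃ x : ℤ, x = w + ((j - (w : ZMod n)).val : ℤ) := ⟨_, rfl⟩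
    have e : (x : ZMod n) = j := by
      rw [hxd]
      push_cast
      rw [ZMod.natCast_zmod_val]
      ring
    have g1 := h3 x (by omega) (by omega)
    have g2 := hq x
    have g3 := cum_succ p x
    rw [e] at g2 g3
    omega
  · have g1 := h1 (j.val : ℤ)
    have g2 := hq (j.val : ℤ)
    have g3 := cum_succ p (j.val : ℤ)
    rw [hx] at g2 g3
    omega
  · have g1 := eq_of_steps (f := Q) (g := cum p) (fun x => by
      rw [← hq, he, cum_succ]
      ring) (0 + n)
    rw [h2, zero_add, cum_zero] at g1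
    omega

/-- the P-positions are the balanced positions -/
theorem isP_iff_bal {c : ℕ} (hc : 1 ≤ c) (h3c : 3 * c ≤ n) (h3c' : n ≤ 3 * c + 2) (N : ℕ) :
    ∀ p : ZMod n → ℕ, ∑ i, p i ≤ N → (IsP n (c + 1) p ↔ Bal n c (cum p)) := by
  induction N using Nat.strong_induction_on with
  | _ N ih =>
    intro p hN
    constructor
    · intro hp
      obtain ⟨m, a, hm, ha⟩ := exists_min (n := n) (c := c) (by omega) (cum_per p)
      rcases absorb (by omega) (by omega) (cum_step p) (cum_per p) hm a ha with h | h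
      · exact h
      · obtain ⟨Q, S', w, h1, h2, h3, h4, h5, h6⟩ := h
        obtain ⟨q, hq⟩ := exists_pos h1 h3
        have hmv : Move n (c + 1) p q := move_of_cum (by omega) hq h2 h3 h4 h5
        have hlt := hmv.lt
        have hbal : Bal n c (cum q) := by
          refine bal_const (P := Q) (d := cum q 0 - Q 0) (fun x => ?_) h6
          exact eq_of_steps (fun x => by rw [← hq, cum_succ]; ring) x
        exact absurd ((ih (∑ i, q i) (by omega) q le_rfl).2 hbal) ((isP_iff p).1 hp q hmv)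
    · intro hp
      rw [isP_iff]
      intro q hmv hq
      have hlt := hmv.lt
      have hbal := (ih (∑ i, q i) (by omega) q le_rfl).1 hq
      obtain ⟨w, h1, h2, h3⟩ := move_cum (by omega) hmv
      exact indep (by omega) (by omega) (by omega) (cum_step q) (cum_per p) (cum_per q) h1 h2 h3
        hp hbal

theorem isP_add_one {c : ℕ} (hc : 1 ≤ c) (h3c : 3 * c ≤ n) (h3c' : n ≤ 3 * c + 2)
    (p : ZMod n → ℕ) : IsP n (c + 1) (fun i => p i + 1) ↔ IsP n (c + 1) p := by
  rw [isP_iff_bal hc h3c h3c' _ _ le_rfl, isP_iff_bal hc h3c h3c' _ p le_rfl,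
    ← bal_succ (by omega) (cum_step p) (cum_per p)]
  have e : ∀ x, cum (fun i => p i + 1) x = cum p x + x := by
    intro x
    have h := eq_of_steps (f := cum (fun i => p i + 1)) (g := fun x => cum p x + x) (fun x => by
      beta_reduce
      rw [cum_succ, cum_succ]
      push_cast
      ring) x
    rw [h, cum_zero, cum_zero]
    ring
  rw [show cum (fun i => p i + 1) = fun x => cum p x + x from funext e]

theorem isP_add {c : ℕ} (hc : 1 ≤ c) (h3c : 3 * c ≤ n) (h3c' : n ≤ 3 * c + 2)
    (p : ZMod n → ℕ) (t : ℕ) : IsP n (c + 1) (fun i => p i + t) ↔ IsP n (c + 1) p := by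
  induction t with
  | zero => simp
  | succ t ih => exact (isP_add_one hc h3c h3c' (fun i => p i + t)).trans ih

/-- `1` is an invariant vector in every game of the family -/
theorem invariant_one {c : ℕ} (hc : 1 ≤ c) (h3c : 3 * c ≤ n) (h3c' : n ≤ 3 * c + 2) :
    Invariant n (c + 1) (fun _ => 1) := by
  refine ⟨fun _ => Or.inr rfl, fun p hp d q hq => ?_⟩
  rcases le_total 0 d with h | h
  · obtain ⟨t, rfl⟩ := Int.eq_ofNat_of_zero_le h
    have e : q = fun i => p i + t := funext fun i => by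
      have := hq i
      push_cast at this
      omega
    rw [e, isP_add hc h3c h3c']
    exact hp
  · obtain ⟨t, ht⟩ := Int.eq_ofNat_of_zero_le (show 0 ≤ -d by omega)
    have e : p = fun i => q i + t := funext fun i => by
      have := hq i
      push_cast at this
      omega
    rw [e, isP_add hc h3c h3c'] at hp
    exact hp

end Pool.Agent.W_30d1b9_h71
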