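import Mathlib

/-!
# MP_30d1b9_co, Circular Nim, the positive half: summation functions, packings

Positions are nonnegative `n`-periodic functions on `ℤ`; we work with their summation functions.
-/

namespace Pool.Agent.W_30d1b9_h71

theorem mono_of_step {f : ℤ → ℤ} (h : ∀ x, f x ≤ f (x + 1)) {x y : ℤ} (hxy : x ≤ y) :
    f x ≤ f y :=
  monotone_int_of_le_succ h hxy

theorem per_mul {n T : ℤ} {f : ℤ → ℤ} (h : ∀ x, f (x + n) = f x + T) (t : ℤ) :
    ∀ x, f (x + n * t) = f x + T * t := by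
  induction t using Int.induction_on with
  | zero => intro x; simp
  | succ i ih =>
    intro x
    rw [show x + n * ((i : ℤ) + 1) = x + n * i + n by ring, h, ih]
    ring
  | pred i ih =>
    intro x
    have h1 := h (x + n * (-(i : ℤ) - 1))
    rw [show x + n * (-(i : ℤ) - 1) + n = x + n * (-(i : ℤ)) by ring, ih] at h1
    linarith

theorem iff_mul {n : ℤ} {Q : ℤ → Prop} (h : ∀ x, Q (x + n) ↔ Q x) (t : ℤ) :
    ∀ x, Q (x + n * t) ↔ Q x := by
  induction t using Int.induction_on with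
  | zero => intro x; simp
  | succ i ih =>
    intro x
    rw [show x + n * ((i : ℤ) + 1) = x + n * i + n by ring, h, ih]
  | pred i ih =>
    intro x
    have h1 := h (x + n * (-(i : ℤ) - 1))
    rw [show x + n * (-(i : ℤ) - 1) + n = x + n * (-(i : ℤ)) by ring, ih] at h1
    exact h1.symm

/-- a representative modulo `n` in `[u, u + n)` -/
theorem rep {n : ℤ} (hn : 0 < n) (x u : ℤ) : ∃ t : ℤ, u ≤ x + n * t ∧ x + n * t < u + n := by
  refine ⟨-((x - u) / n), ?_, ?_⟩
  · have h1 := Int.emod_nonneg (x - u) hn.ne'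
    have h2 := Int.emod_add_mul_ediv (x - u) n
    linarith
  · have h1 := Int.emod_lt_of_pos (x - u) hn
    have h2 := Int.emod_add_mul_ediv (x - u) n
    linarith

theorem reduce {n : ℤ} (hn : 0 < n) (u : ℤ) {Q : ℤ → Prop} (hQ : ∀ x, Q (x + n) ↔ Q x)
    (h : ∀ x, u ≤ x → x < u + n → Q x) (x : ℤ) : Q x := by
  obtain ⟨t, h1, h2⟩ := rep hn x u
  exact (iff_mul hQ t x).1 (h _ h1 h2)

theorem exists_ext {n : ℤ} (hn : 0 < n) (u : ℤ) (f : ℤ → ℤ) :
    ∃ F : ℤ → ℤ, (∀ x, F (x + n) = F x + (f (u + n) - f u)) ∧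
      ∀ x, u ≤ x → x ≤ u + n → F x = f x := by
  refine ⟨fun x => f (u + (x - u) % n) + ((x - u) / n) * (f (u + n) - f u), fun x => ?_,
    fun x h1 h2 => ?_⟩
  · have e1 : (x + n - u) % n = (x - u) % n := by
      rw [show x + n - u = (x - u) + n by ring, Int.add_emod_right]
    have e2 : (x + n - u) / n = (x - u) / n + 1 := by
      rw [show x + n - u = (x - u) + n by ring, Int.add_ediv_of_dvd_right dvd_rfl, Int.ediv_self hn.ne']
    show f (u + (x + n - u) % n) + ((x + n - u) / n) * (f (u + n) - f u) = _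
    rw [e1, e2]
    ring
  · show f (u + (x - u) % n) + ((x - u) / n) * (f (u + n) - f u) = _
    rcases lt_or_eq_of_le h2 with h3 | h3
    · rw [Int.emod_eq_of_lt (by linarith) (by linarith),
        Int.ediv_eq_zero_of_lt (by linarith) (by linarith)]
      simp
    · have e1 : x - u = n := by linarith
      rw [e1, Int.emod_self, Int.ediv_self hn.ne', h3]
      simp

/-- `D` is the summation function of a packing, with sum `T`, for the position with summation
function `P`, at level `m`. -/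
structure Pack (n c m : ℤ) (P D : ℤ → ℤ) (T : ℤ) : Prop where
  step : ∀ x, D x ≤ D (x + 1)
  le : ∀ x, D (x + 1) - D x ≤ P (x + 1) - P x
  per : ∀ x, D (x + n) = D x + T
  win : ∀ x, m ≤ P (x + c) - P x - (D (x + c) - D x)

/-- to check that `D` is a packing, one period suffices -/
theorem pack_of {n c m S T : ℤ} (hn : 0 < n) {P D : ℤ → ℤ} (hP : ∀ x, P (x + n) = P x + S)
    (hD : ∀ x, D (x + n) = D x + T) (u : ℤ)
    (h : ∀ x, u ≤ x → x < u + n → D x ≤ D (x + 1) ∧ D (x + 1) - D x ≤ P (x + 1) - P x ∧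
      m ≤ P (x + c) - P x - (D (x + c) - D x)) : Pack n c m P D T := by
  have h1 := reduce hn u (Q := fun x => D x ≤ D (x + 1) ∧ D (x + 1) - D x ≤ P (x + 1) - P x ∧
      m ≤ P (x + c) - P x - (D (x + c) - D x)) (fun x => by
        have e1 := hP x
        have e2 := hP (x + 1)
        have e3 := hP (x + c)
        have e4 := hD x
        have e5 := hD (x + 1)
        have e6 := hD (x + c)
        rw [add_right_comm] at e2 e3 e5 e6
        rw [e1, e2, e3, e4, e5, e6]
        constructor <;> rintro ⟨g1, g2, g3⟩ <;> refine ⟨?_, ?_, ?_⟩ <;> linarith) h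
  exact ⟨fun x => (h1 x).1, fun x => (h1 x).2.1, hD, fun x => (h1 x).2.2⟩

theorem pack_ext {n c m S : ℤ} (hn : 0 < n) (hc : 1 ≤ c) (hcn : c ≤ n) {P : ℤ → ℤ}
    (hP : ∀ x, P (x + n) = P x + S) (u : ℤ) (f : ℤ → ℤ)
    (h1 : ∀ x, u ≤ x → x < u + n → f x ≤ f (x + 1) ∧ f (x + 1) - f x ≤ P (x + 1) - P x)
    (h2 : ∀ x, u ≤ x → x < u + n → x + c ≤ u + n → m ≤ P (x + c) - P x - (f (x + c) - f x))
    (h3 : ∀ x, u ≤ x → x < u + n → u + n < x + c →
      m ≤ P (x + c) - P x - (f (x + c - n) + (f (u + n) - f u) - f x)) :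
    ∃ D, Pack n c m P D (f (u + n) - f u) ∧ ∀ x, u ≤ x → x ≤ u + n → D x = f x := by
  obtain ⟨D, hD1, hD2⟩ := exists_ext hn u f
  refine ⟨D, pack_of hn hP hD1 u fun x hx1 hx2 => ?_, hD2⟩
  obtain ⟨g1, g2⟩ := h1 x hx1 hx2
  have e1 := hD2 x hx1 hx2.le
  have e2 := hD2 (x + 1) (by linarith) (by linarith)
  refine ⟨by rw [e1, e2]; exact g1, by rw [e1, e2]; exact g2, ?_⟩
  rcases le_or_gt (x + c) (u + n) with h4 | h4
  · rw [e1, hD2 (x + c) (by linarith) h4]
    exact h2 x hx1 hx2 h4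
  · have e3 := hD1 (x + c - n)
    rw [sub_add_cancel, hD2 (x + c - n) (by linarith) (by linarith)] at e3
    rw [e1, e3]
    exact h3 x hx1 hx2 h4

/-- mixture of two packings at `a` and `b` -/
theorem mix {n c m S : ℤ} (hn : 0 < n) (hc : 1 ≤ c) (hcn : c ≤ n) {P : ℤ → ℤ}
    (hP : ∀ x, P (x + n) = P x + S) {a b : ℤ} (hab : a ≤ b) (hba : b ≤ a + n) {E F : ℤ → ℤ}
    (hE : ∀ x, E x ≤ E (x + 1)) (hF : ∀ x, F x ≤ F (x + 1))
    (hE1 : ∀ x, a ≤ x → x < b → E (x + 1) - E x ≤ P (x + 1) - P x)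
    (hF1 : ∀ x, b ≤ x → x < a + n → F (x + 1) - F x ≤ P (x + 1) - P x)
    (hE2 : ∀ x, a ≤ x → x ≤ b → m ≤ P (x + c) - P x - (E (x + c) - E x))
    (hF2 : ∀ x, b < x → x < a + n → m ≤ P (x + c) - P x - (F (x + c) - F x))
    (hEa : E (a + c) ≤ E a) (hFb : F (b + c) ≤ F b) :
    ∃ M, Pack n c m P M (E b - E a + (F (a + n) - F b)) ∧
      (∀ x, a ≤ x → x ≤ b → M x = E x) ∧ ∀ x, b ≤ x → x ≤ a + n → M x = F x - F b + E b := by
  have hmE : ∀ {x y : ℤ}, x ≤ y → E x ≤ E y := fun h => mono_of_step hE h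
  have hmF : ∀ {x y : ℤ}, x ≤ y → F x ≤ F y := fun h => mono_of_step hF h
  obtain ⟨f, hf⟩ : ∃ f : ℤ → ℤ, ∀ x, f x = if x ≤ b then E x else F x - F b + E b :=
    ⟨_, fun _ => rfl⟩
  have hf1 : ∀ x, x ≤ b → f x = E x := fun x hx => by rw [hf, if_pos hx]
  have hf2 : ∀ x, b ≤ x → f x = F x - F b + E b := fun x hx => by
    rw [hf]
    split_ifs with h
    · have : x = b := le_antisymm h hx
      rw [this]
      ring
    · rfl
  have k1 : ∀ x, a ≤ x → x < a + n → f x ≤ f (x + 1) ∧ f (x + 1) - f x ≤ P (x + 1) - P x := by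
    intro x hx1 hx2
    rcases lt_or_ge x b with h | h
    · rw [hf1 x h.le, hf1 (x + 1) (by omega)]
      exact ⟨hE x, hE1 x hx1 h⟩
    · rw [hf2 x h, hf2 (x + 1) (by omega)]
      have := hF x
      have := hF1 x h hx2
      constructor <;> linarith
  have k2 : ∀ x, a ≤ x → x < a + n → x + c ≤ a + n →
      m ≤ P (x + c) - P x - (f (x + c) - f x) := by
    intro x hx1 hx2 hx3
    rcases le_or_gt x b with h | h
    · rcases le_or_gt (x + c) b with h4 | h4
      · rw [hf1 x h, hf1 _ h4]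
        exact hE2 x hx1 h
      · rw [hf1 x h, hf2 _ h4.le]
        have g1 := hE2 x hx1 h
        have g2 := hmF (show x + c ≤ b + c by omega)
        have g3 := hmE h4.le
        linarith
    · rw [hf2 x h.le, hf2 (x + c) (by omega)]
      have := hF2 x h hx2
      linarith
  have k3 : ∀ x, a ≤ x → x < a + n → a + n < x + c →
      m ≤ P (x + c) - P x - (f (x + c - n) + (f (a + n) - f a) - f x) := by
    intro x hx1 hx2 hx3
    have hfc : f (x + c - n) ≤ E a := by
      rcases le_or_gt (x + c - n) b with h4 | h4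
      · rw [hf1 _ h4]
        have := hmE (show x + c - n ≤ a + c by omega)
        linarith
      · rw [hf2 _ h4.le]
        have g1 := hmF (show x + c - n ≤ b + c by omega)
        have g2 := hmE (show b ≤ a + c by omega)
        linarith
    rw [hf1 a hab, hf2 (a + n) hba]
    rcases le_or_gt x b with h | h
    · rw [hf1 x h]
      have g1 := hE2 x hx1 h
      have g2 := hmF (show a + n ≤ b + c by omega)
      have g3 := hmE (show b ≤ x + c by omega)
      linarith
    · rw [hf2 x h.le]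
      have g1 := hF2 x h hx2
      have g2 := hmF (show a + n ≤ x + c by omega)
      linarith
  obtain ⟨M, hM1, hM2⟩ := pack_ext hn hc hcn hP a f k1 k2 k3
  refine ⟨M, ?_, fun x h1 h2 => ?_, fun x h1 h2 => ?_⟩
  · have e : f (a + n) - f a = E b - E a + (F (a + n) - F b) := by
      rw [hf1 a hab, hf2 (a + n) hba]
      ring
    rw [← e]
    exact hM1
  · rw [hM2 x h1 (by linarith), hf1 x h2]
  · rw [hM2 x (by linarith) h2, hf2 x h1]

/-- optimal packings -/
def Opt (n c m : ℤ) (P D : ℤ → ℤ) (T : ℤ) : Prop :=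
  Pack n c m P D T ∧ ∀ E T', Pack n c m P E T' → T' ≤ T

/-- after a tight place of an optimal packing, one of the next `c` places is tight -/
theorem zone {n c m S T : ℤ} (hn : 0 < n) (hc : 1 ≤ c) (hcn : c ≤ n) {P : ℤ → ℤ}
    (hP : ∀ x, P (x + n) = P x + S) {D : ℤ → ℤ} (hD : Opt n c m P D T) {y : ℤ}
    (hy : P (y + c) - P y - (D (y + c) - D y) = m)
    (h : ∀ x, y < x → x ≤ y + c → m + 1 ≤ P (x + c) - P x - (D (x + c) - D x)) : False := by
  obtain ⟨hD1, hD2⟩ := hD
  obtain ⟨f, hf⟩ : ∃ f : ℤ → ℤ, ∀ x, f x = if x ≤ y + c then D x else D x + 1 :=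
    ⟨_, fun _ => rfl⟩
  have hf1 : ∀ x, x ≤ y + c → f x = D x := fun x hx => by rw [hf, if_pos hx]
  have hf2 : ∀ x, y + c < x → f x = D x + 1 := fun x hx => by rw [hf, if_neg (by omega)]
  have e1 : f (y + 1 + n) - f (y + 1) = T + 1 := by
    rw [hf1 (y + 1) (by omega), hf2 _ (by omega), hD1.per]
    ring
  have k1 : ∀ x, y + 1 ≤ x → x < y + 1 + n →
      f x ≤ f (x + 1) ∧ f (x + 1) - f x ≤ P (x + 1) - P x := by
    intro x hx1 hx2
    have g1 := hD1.step x
    have g2 := hD1.le x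
    rcases lt_trichotomy x (y + c) with h1 | h1 | h1
    · rw [hf1 x h1.le, hf1 (x + 1) (by omega)]
      exact ⟨g1, g2⟩
    · subst h1
      rw [hf1 _ le_rfl, hf2 _ (by omega)]
      have g3 := h (y + 1) (by omega) (by omega)
      have g4 := hD1.le y
      rw [show y + 1 + c = y + c + 1 by ring] at g3
      constructor <;> linarith
    · rw [hf2 x h1, hf2 (x + 1) (by omega)]
      constructor <;> linarith
  have k2 : ∀ x, y + 1 ≤ x → x < y + 1 + n → x + c ≤ y + 1 + n →
      m ≤ P (x + c) - P x - (f (x + c) - f x) := by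
    intro x hx1 hx2 hx3
    rw [hf2 (x + c) (by omega)]
    rcases le_or_gt x (y + c) with h1 | h1
    · rw [hf1 x h1]
      have := h x (by omega) h1
      linarith
    · rw [hf2 x h1]
      have := hD1.win x
      linarith
  have k3 : ∀ x, y + 1 ≤ x → x < y + 1 + n → y + 1 + n < x + c →
      m ≤ P (x + c) - P x - (f (x + c - n) + (f (y + 1 + n) - f (y + 1)) - f x) := by
    intro x hx1 hx2 hx3
    rw [e1, hf1 (x + c - n) (by omega)]
    have g1 := hD1.per (x + c - n)
    rw [sub_add_cancel] at g1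
    rcases le_or_gt x (y + c) with h1 | h1
    · rw [hf1 x h1]
      have := h x (by omega) h1
      linarith
    · rw [hf2 x h1]
      have := hD1.win x
      linarith
  obtain ⟨M, hM1, -⟩ := pack_ext hn hc hcn hP (y + 1) f k1 k2 k3
  have := hD2 M _ hM1
  omega

/-- `c` consecutive places are not all slack -/
theorem zone' {n c m S T : ℤ} (hn : 0 < n) (hc : 1 ≤ c) (hcn : c ≤ n) {P : ℤ → ℤ}
    (hP : ∀ x, P (x + n) = P x + S) {D : ℤ → ℤ} (hD : Opt n c m P D T) {y u : ℤ} (hyu : y ≤ u)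
    (hy : P (y + c) - P y - (D (y + c) - D y) = m)
    (h : ∀ x, u < x → x ≤ u + c → m + 1 ≤ P (x + c) - P x - (D (x + c) - D x)) : False := by
  -- the last tight place up to `u`
  obtain ⟨z, ⟨hz1, hz2⟩, hz3⟩ := Int.exists_greatest_of_bdd
    (P := fun z => z ≤ u ∧ P (z + c) - P z - (D (z + c) - D z) = m) ⟨u, fun z hz => hz.1⟩
    ⟨y, hyu, hy⟩
  refine zone hn hc hcn hP hD hz2 fun x hx1 hx2 => ?_
  rcases le_or_gt x u with h1 | h1
  · have g1 := hD.1.win x
    rcases lt_or_eq_of_le g1 with g2 | g2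
    · linarith
    · have := hz3 x ⟨h1, g2.symm⟩
      omega
  · exact h x h1 (by omega)

/-- balanced positions -/
def Bal (n c : ℤ) (P : ℤ → ℤ) : Prop :=
  ∃ (m g a b : ℤ) (D : ℤ → ℤ), (∀ x, m ≤ P (x + c) - P x) ∧ P (a + c) - P a = m ∧
    P (b + c) - P b = m ∧ Opt n c m P D (2 * g) ∧ a ≤ b ∧ b ≤ a + n ∧ D b = D a + g

end Pool.Agent.W_30d1b9_h71
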