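import Pool.Agent.W_30d1b9_h71.Abs

/-!
# MP_30d1b9_co, Circular Nim, the positive half: no move between balanced positions
-/

namespace Pool.Agent.W_30d1b9_h71

/-- the first step up -/
theorem jump_first {f : ℤ → ℤ} (hf : ∀ x, f x ≤ f (x + 1)) {x y : ℤ} (h : f x < f y)
    (hxy : x < y) : ∃ j, x ≤ j ∧ j < y ∧ f j = f x ∧ f j < f (j + 1) := by
  obtain ⟨j, ⟨h1, h2, h3⟩, h4⟩ := Int.exists_greatest_of_bdd
    (P := fun z => x ≤ z ∧ z ≤ y ∧ f z = f x) ⟨y, fun z hz => hz.2.1⟩ ⟨x, le_rfl, hxy.le, rfl⟩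
  have h5 : j < y := by
    rcases lt_or_eq_of_le h2 with h5 | h5
    · exact h5
    · rw [h5] at h3
      omega
  refine ⟨j, h1, h5, h3, ?_⟩
  rcases lt_or_eq_of_le (hf j) with h6 | h6
  · exact h6
  · have := h4 (j + 1) ⟨by omega, by omega, by omega⟩
    omega

/-- the last step up -/
theorem jump_last {f : ℤ → ℤ} (hf : ∀ x, f x ≤ f (x + 1)) {x y : ℤ} (h : f x < f y)
    (hxy : x < y) : ∃ j, x ≤ j ∧ j < y ∧ f (j + 1) = f y ∧ f j < f (j + 1) := by
  obtain ⟨j, ⟨h1, h2, h3⟩, h4⟩ := Int.exists_least_of_bdd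
    (P := fun z => x ≤ z ∧ z ≤ y ∧ f z = f y) ⟨x, fun z hz => hz.1⟩ ⟨y, hxy.le, le_rfl, rfl⟩
  have h5 : x < j := by
    rcases lt_or_eq_of_le h1 with h5 | h5
    · exact h5
    · rw [← h5] at h3
      omega
  refine ⟨j - 1, by omega, by omega, by rw [sub_add_cancel]; exact h3, ?_⟩
  rw [sub_add_cancel]
  have h6 := hf (j - 1)
  rw [sub_add_cancel] at h6
  rcases lt_or_eq_of_le h6 with h7 | h7
  · exact h7
  · have := h4 (j - 1) ⟨by omega, by omega, by omega⟩
    omega

theorem two_reps {n g : ℤ} {D : ℤ → ℤ} (hs : ∀ x, D x ≤ D (x + 1))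
    (hper : ∀ x, D (x + n) = D x + 2 * g) {a b : ℤ} (hab : D b = D a + g) (s t : ℤ) (hn : 0 < n)
    (h1 : b + n * t < a + n * s + n) (h2 : a + n * s < b + n * t + n) :
    (a + n * s ≤ b + n * t → D (b + n * t) = D (a + n * s) + g) ∧
      (b + n * t ≤ a + n * s → D (a + n * s) = D (b + n * t) + g) := by
  have e1 := per_mul hper t b
  have e2 := per_mul hper s a
  have g1 := mono_of_step hs h1.le
  have g2 := mono_of_step hs h2.le
  rw [hper] at g1 g2
  have g0 : 0 ≤ g := by
    have := mono_of_step hs (show a ≤ a + n by omega)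
    rw [hper] at this
    omega
  obtain ⟨u, hu⟩ : ∃ u, t = s + u := ⟨t - s, by ring⟩
  have e3 : D (b + n * t) = D (a + n * s) + g + 2 * g * u := by
    rw [e1, e2, hab, hu]
    ring
  rcases eq_or_lt_of_le g0 with h0 | h0
  · rw [← h0] at e3
    constructor <;> intro _ <;> rw [← h0] <;> linarith
  · have hu0 : u ≤ 0 := by
      by_contra hcon
      have : 1 ≤ u := by omega
      nlinarith
    have hu1 : -1 ≤ u := by
      by_contra hcon
      have : u ≤ -2 := by omega
      nlinarith
    constructor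
    · intro h
      have g3 := mono_of_step hs h
      have : u = 0 := by
        by_contra hcon
        have : u = -1 := by omega
        rw [this] at e3
        linarith
      rw [this] at e3
      linarith
    · intro h
      have g3 := mono_of_step hs h
      have : u = -1 := by
        by_contra hcon
        have : u = 0 := by omega
        rw [this] at e3
        linarith
      rw [this] at e3
      linarith

/-- the tokens removed in a move -/
structure Hump (n c : ℤ) (R : ℤ → ℤ) (ρ w : ℤ) : Prop where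
  step : ∀ x, R x ≤ R (x + 1)
  per : ∀ x, R (x + n) = R x + ρ
  flat : ∀ x, w + c < x → x < w + n → R (x + 1) = R x

theorem Hump.shift {n c : ℤ} {R : ℤ → ℤ} {ρ w : ℤ} (h : Hump n c R ρ w) (t : ℤ) :
    Hump n c R ρ (w + n * t) := by
  refine ⟨h.step, h.per, fun x h1 h2 => ?_⟩
  have e1 := per_mul h.per (-t) x
  have e2 := per_mul h.per (-t) (x + 1)
  have e3 := h.flat (x + n * (-t)) (by linarith) (by linarith)
  rw [add_right_comm] at e3
  rw [e1, e2] at e3
  linarith

theorem Hump.hi {n c : ℤ} {R : ℤ → ℤ} {ρ w : ℤ} (h : Hump n c R ρ w) {x : ℤ}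
    (h1 : w + c + 1 ≤ x) (h2 : x ≤ w + n) : R x = R w + ρ := by
  rw [← h.per]
  by_contra hcon
  have h3 := mono_of_step h.step h2
  have h4 : x < w + n := by
    rcases lt_or_eq_of_le h2 with h4 | h4
    · exact h4
    · rw [h4] at hcon
      exact absurd rfl hcon
  obtain ⟨j, hj1, hj2, hj3⟩ := jump (f := R) (x := x) (y := w + n) (by omega) h4
  have := h.flat j (by omega) hj2
  omega

theorem Hump.lo {n c : ℤ} {R : ℤ → ℤ} {ρ w : ℤ} (h : Hump n c R ρ w) {x : ℤ}
    (h1 : w + c + 1 - n ≤ x) (h2 : x ≤ w) : R x = R w := by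
  have h3 := h.hi (x := x + n) (by omega) (by omega)
  have h4 := h.per x
  omega

theorem case_eq_aux {n c m S S' ρ w g g' a1 a2 b1 b2 : ℤ} {P P' R D D' : ℤ → ℤ} (hc : 1 ≤ c)
    (h3c : 3 * c ≤ n) (h3c' : n ≤ 3 * c + 2)
    (hP : ∀ x, P (x + n) = P x + S) (hP' : ∀ x, P' (x + n) = P' x + S')
    (hR : ∀ x, R x = P x - P' x) (hH : Hump n c R ρ w) (hρ : 0 < ρ)
    (hm' : ∀ x, m ≤ P' (x + c) - P' x)
    (ha1 : P (a1 + c) - P a1 = m) (ha2 : P (a2 + c) - P a2 = m) (h12 : a1 ≤ a2)
    (h21 : a2 ≤ a1 + n) (hD : Opt n c m P D (2 * g)) (hDa : D a2 = D a1 + g)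
    (hb1 : P' (b1 + c) - P' b1 = m) (hb2 : P' (b2 + c) - P' b2 = m)
    (hD' : Opt n c m P' D' (2 * g')) (hDb : D' b2 = D' b1 + g')
    (hb12 : b1 ≤ b2) (hb21 : b2 ≤ b1 + n) (hpart : R (a1 + n) = R a2) : False := by
  obtain ⟨hD1, hD2⟩ := hD
  obtain ⟨hD'1, hD'2⟩ := hD'
  have hDm : ∀ {x y : ℤ}, x ≤ y → D x ≤ D y := fun h => mono_of_step hD1.step h
  have hD'm : ∀ {x y : ℤ}, x ≤ y → D' x ≤ D' y := fun h => mono_of_step hD'1.step h
  have hRm : ∀ {x y : ℤ}, x ≤ y → R x ≤ R y := fun h => mono_of_step hH.step h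
  -- `a1`, `a2` in `P'`
  have q1 : P' (a1 + c) - P' a1 = m ∧ R (a1 + c) = R a1 := by
    have g1 := hm' a1
    have g2 := hRm (show a1 ≤ a1 + c by omega)
    have g3 := hR a1
    have g4 := hR (a1 + c)
    omega
  have q2 : P' (a2 + c) - P' a2 = m ∧ R (a2 + c) = R a2 := by
    have g1 := hm' a2
    have g2 := hRm (show a2 ≤ a2 + c by omega)
    have g3 := hR a2
    have g4 := hR (a2 + c)
    omega
  have q3 : D' (a1 + c) = D' a1 := by
    have g1 := hD'1.win a1
    have g2 := hD'm (show a1 ≤ a1 + c by omega)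
    omega
  have q4 : D' (a2 + c) = D' a2 := by
    have g1 := hD'1.win a2
    have g2 := hD'm (show a2 ≤ a2 + c by omega)
    omega
  have q5 : D (a2 + c) = D a2 := by
    have g1 := hD1.win a2
    have g2 := hDm (show a2 ≤ a2 + c by omega)
    omega
  -- step 1
  have s1 : 2 * g' + ρ ≤ 2 * g := by
    refine hD2 (fun x => D' x + R x) _ ⟨fun x => ?_, fun x => ?_, fun x => ?_, fun x => ?_⟩
    · have := hD'1.step x
      have := hH.step x
      linarith
    · have := hD'1.le x
      have := hR x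
      have := hR (x + 1)
      linarith
    · have := hD'1.per x
      have := hH.per x
      linarith
    · have := hD'1.win x
      have := hR x
      have := hR (x + c)
      linarith
  -- step 2
  have s2 : g ≤ D' (a1 + n) - D' a2 := by
    have f1 : ∀ x, a2 ≤ x → x ≤ a1 + n + c → R x = R a2 := by
      intro x hx1 hx2
      have g1 := hRm hx1
      have g2 := hRm hx2
      have g3 := hH.per (a1 + c)
      rw [show a1 + c + n = a1 + n + c by ring] at g3
      have g4 := hH.per a1
      have := q1.2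
      linarith
    obtain ⟨M, hM, -⟩ := mix (m := m) (E := D') (F := D) (show 0 < n by omega) hc (by omega) hP'
      h12 h21 hD'1.step hD1.step (fun x _ _ => hD'1.le x)
      (fun x hx1 hx2 => by
        have g1 := hD1.le x
        have g2 := f1 x hx1 (by omega)
        have g3 := f1 (x + 1) (by omega) (by omega)
        have g4 := hR x
        have g5 := hR (x + 1)
        linarith)
      (fun x _ _ => hD'1.win x)
      (fun x hx1 hx2 => by
        have g1 := hD1.win x
        have g2 := f1 x hx1.le (by omega)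
        have g3 := f1 (x + c) (by omega) (by omega)
        have g4 := hR x
        have g5 := hR (x + c)
        linarith) q3.le q5.le
    have g1 := hD'2 _ _ hM
    have g2 := hD1.per a1
    have g3 := hD'1.per a1
    linarith
  have g'0 : 0 ≤ g' := by
    have := hD'm hb12
    linarith
  -- step 3
  have hlt : a2 < a1 + n := by
    rcases lt_or_eq_of_le h21 with h | h
    · exact h
    · rw [h] at s2
      omega
  obtain ⟨j1, hj1, hj1', hj1e, hj1s⟩ := jump_first hD'1.step (x := a2) (y := a1 + n) (by omega) hlt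
  obtain ⟨j2, hj2, hj2', hj2e, hj2s⟩ := jump_last hD'1.step (x := a2) (y := a1 + n) (by omega) hlt
  have s3 : j1 + c + 1 ≤ j2 := by
    obtain ⟨t, ht1, ht2⟩ := rep (show 0 < n by omega) b1 (j1 - n + 1)
    have e1 := per_mul hD'1.per t b1
    have e2 := per_mul hD'1.per t b2
    have e3 := per_mul hD'1.per t (b1 + c)
    have e4 := per_mul hD'1.per t (b2 + c)
    have e5 := hD'1.per (b1 + n * t)
    have e6 := hD'1.per (b1 + n * t + c)
    have e7 : D' (b1 + c) = D' b1 := by
      have g1 := hD'1.win b1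
      have g2 := hD'm (show b1 ≤ b1 + c by omega)
      omega
    have e8 : D' (b2 + c) = D' b2 := by
      have g1 := hD'1.win b2
      have g2 := hD'm (show b2 ≤ b2 + c by omega)
      omega
    rw [show b1 + c + n * t = b1 + n * t + c by ring] at e3
    rw [show b2 + c + n * t = b2 + n * t + c by ring] at e4
    rw [show b1 + n * t + c + n = b1 + n * t + n + c by ring] at e6
    obtain ⟨B1, hB1⟩ : ∃ B, B = b1 + n * t := ⟨_, rfl⟩
    obtain ⟨B2, hB2⟩ : ∃ B, B = b2 + n * t := ⟨_, rfl⟩
    rw [← hB1] at e1 e3 e5 e6 ht1 ht2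
    rw [← hB2] at e2 e4
    rcases lt_or_ge j1 B2 with h | h
    · rcases lt_or_ge j2 B2 with h' | h'
      · have g1 := hD'm (show j2 + 1 ≤ B2 by omega)
        have g2 := hD'm (show B1 ≤ j1 by omega)
        linarith
      · rcases lt_or_ge j2 (B2 + c) with h'' | h''
        · have g1 := hD'm (show j2 + 1 ≤ B2 + c by omega)
          have g2 := hD'm h'
          linarith
        · omega
    · rcases lt_or_ge j2 (B1 + n) with h' | h'
      · have g1 := hD'm (show j2 + 1 ≤ B1 + n by omega)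
        have g2 := hD'm h
        linarith
      · rcases lt_or_ge j2 (B1 + n + c) with h'' | h''
        · have g1 := hD'm (show j2 + 1 ≤ B1 + n + c by omega)
          have g2 := hD'm h'
          linarith
        · omega
  -- step 4
  have hRlt : R a1 < R a2 := by
    have := hH.per a1
    omega
  have h12' : a1 < a2 := by
    rcases lt_or_eq_of_le h12 with h | h
    · exact h
    · rw [h] at hRlt
      omega
  obtain ⟨r, hr1, hr2, hr⟩ := jump hRlt h12'
  have s4 : a1 + c ≤ r := by
    by_contra hcon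
    have g1 := hRm (show r + 1 ≤ a1 + c by omega)
    have g2 := hRm hr1
    have := q1.2
    omega
  have s5 : a2 + c ≤ j1 := by
    by_contra hcon
    have g1 := hD'm (show j1 + 1 ≤ a2 + c by omega)
    omega
  omega

theorem case_eq {n c m S S' ρ w g g' a1 a2 b1 b2 : ℤ} {P P' R D D' : ℤ → ℤ} (hc : 1 ≤ c)
    (h3c : 3 * c ≤ n) (h3c' : n ≤ 3 * c + 2)
    (hP : ∀ x, P (x + n) = P x + S) (hP' : ∀ x, P' (x + n) = P' x + S')
    (hR : ∀ x, R x = P x - P' x) (hH : Hump n c R ρ w) (hρ : 0 < ρ)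
    (hm' : ∀ x, m ≤ P' (x + c) - P' x)
    (ha1 : P (a1 + c) - P a1 = m) (ha2 : P (a2 + c) - P a2 = m) (h12 : a1 ≤ a2)
    (h21 : a2 ≤ a1 + n) (hD : Opt n c m P D (2 * g)) (hDa : D a2 = D a1 + g)
    (hb1 : P' (b1 + c) - P' b1 = m) (hb2 : P' (b2 + c) - P' b2 = m)
    (hD' : Opt n c m P' D' (2 * g')) (hDb : D' b2 = D' b1 + g')
    (hb12 : b1 ≤ b2) (hb21 : b2 ≤ b1 + n) : False := by
  have hRm : ∀ {x y : ℤ}, x ≤ y → R x ≤ R y := fun h => mono_of_step hH.step h
  have q1 : R (a1 + c) = R a1 := by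
    have g1 := hm' a1
    have g2 := hRm (show a1 ≤ a1 + c by omega)
    have g3 := hR a1
    have g4 := hR (a1 + c)
    omega
  have q2 : R (a2 + c) = R a2 := by
    have g1 := hm' a2
    have g2 := hRm (show a2 ≤ a2 + c by omega)
    have g3 := hR a2
    have g4 := hR (a2 + c)
    omega
  have key : R a2 = R a1 ∨ R (a1 + n) = R a2 := by
    by_contra hcon
    push Not at hcon
    obtain ⟨c1, c2⟩ := hcon
    have d1 := hRm h12
    have d2 := hRm h21
    obtain ⟨r1, hr1, hr1', hr1s⟩ := jump (f := R) (x := a1) (y := a2) (by omega) (by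
      rcases lt_or_eq_of_le h12 with h | h
      · exact h
      · exact absurd (by rw [h]) c1)
    obtain ⟨r2, hr2, hr2', hr2s⟩ := jump (f := R) (x := a2) (y := a1 + n) (by omega) (by
      rcases lt_or_eq_of_le h21 with h | h
      · exact h
      · exact absurd (by rw [h]) c2)
    have s1 : a1 + c ≤ r1 := by
      by_contra hcon
      have g1 := hRm (show r1 + 1 ≤ a1 + c by omega)
      have g2 := hRm hr1
      omega
    have s2 : a2 + c ≤ r2 := by
      by_contra hcon
      have g1 := hRm (show r2 + 1 ≤ a2 + c by omega)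
      have g2 := hRm hr2
      omega
    obtain ⟨t, ht1, ht2⟩ := rep (show 0 < n by omega) w (r1 - n + 1)
    have hH' := hH.shift t
    obtain ⟨W, hW⟩ : ∃ W, W = w + n * t := ⟨_, rfl⟩
    rw [← hW] at hH' ht1 ht2
    have s3 : r1 ≤ W + c := by
      by_contra hcon
      have := hH'.flat r1 (by omega) (by omega)
      omega
    have s4 : W + n ≤ r2 := by
      by_contra hcon
      have := hH'.flat r2 (by omega) (by omega)
      omega
    omega
  rcases key with h | h
  · have e1 := hD.1.per a1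
    refine case_eq_aux hc h3c h3c' hP hP' hR hH hρ hm' ha2 (a2 := a1 + n) ?_ h21 (by omega) hD
      (by linarith) hb1 hb2 hD' hDb hb12 hb21 ?_
    · have g1 := hP (a1 + c)
      rw [show a1 + c + n = a1 + n + c by ring] at g1
      rw [g1, hP]
      linarith
    · rw [hH.per, hH.per, h]
  · exact case_eq_aux hc h3c h3c' hP hP' hR hH hρ hm' ha1 ha2 h12 h21 hD hDa hb1 hb2 hD' hDb
      hb12 hb21 h

end Pool.Agent.W_30d1b9_h71
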