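import Pool.Agent.W_30d1b9_h71.Ind

/-!
# MP_30d1b9_co, Circular Nim, the positive half: no move between balanced positions, case `m' < m`
-/

namespace Pool.Agent.W_30d1b9_h71

/-- data of the case `m' < m` -/
structure Dat (n c m m' S S' ρ w g g' b1 b2 : ℤ) (P P' R D D' : ℤ → ℤ) : Prop where
  hc : 1 ≤ c
  h3c : 3 * c ≤ n
  hP's : ∀ x, P' x ≤ P' (x + 1)
  hP : ∀ x, P (x + n) = P x + S
  hP' : ∀ x, P' (x + n) = P' x + S'
  hR : ∀ x, R x = P x - P' x
  hH : Hump n c R ρ w
  hmm : m' < m
  hm : ∀ x, m ≤ P (x + c) - P x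
  hm' : ∀ x, m' ≤ P' (x + c) - P' x
  hD : Opt n c m P D (2 * g)
  hD' : Opt n c m' P' D' (2 * g')
  hb1 : P' (b1 + c) - P' b1 = m'
  hb2 : P' (b2 + c) - P' b2 = m'
  hDb : D' b2 = D' b1 + g'
  hb0 : w - c + 1 ≤ b1
  hb12 : b1 ≤ b2
  hb3 : b2 ≤ w + c

variable {n c m m' S S' ρ w g g' b1 b2 : ℤ} {P P' R D D' : ℤ → ℤ}

theorem Dat.mixE (h : Dat n c m m' S S' ρ w g g' b1 b2 P P' R D D') {E : ℤ → ℤ} {e : ℤ}
    (hE1 : Pack n c m' P' E e) (hE3 : E (b2 + c) = E b1) :
    ∃ M, Pack n c m' P' M (g' + e) ∧ (∀ x, b1 ≤ x → x ≤ b2 → M x = D' x) ∧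
      (∀ x, b2 ≤ x → x ≤ b1 + n → M x = E x - E b2 + D' b2) ∧ M (b1 + c) = M b1 ∧
      M (b2 + c) = M b2 := by
  obtain ⟨hD'1, hD'2⟩ := h.hD'
  have hc := h.hc
  have h3c := h.h3c
  have hEm : ∀ {x y : ℤ}, x ≤ y → E x ≤ E y := fun h => mono_of_step hE1.step h
  have hD'm : ∀ {x y : ℤ}, x ≤ y → D' x ≤ D' y := fun h => mono_of_step hD'1.step h
  have hb0 := h.hb0
  have hb3 := h.hb3
  have hb12 := h.hb12
  have q1 : D' (b1 + c) ≤ D' b1 := by
    have g1 := hD'1.win b1
    have := h.hb1
    omega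
  have q2 : E (b2 + c) ≤ E b2 := by
    have g1 := hE1.win b2
    have := h.hb2
    omega
  obtain ⟨M, hM1, hM2, hM3⟩ := mix (m := m') (E := D') (F := E) (show 0 < n by omega) hc
    (by omega) h.hP' h.hb12 (by omega) hD'1.step hE1.step (fun x _ _ => hD'1.le x)
    (fun x _ _ => hE1.le x) (fun x _ _ => hD'1.win x) (fun x _ _ => hE1.win x) q1 q2
  have e1 : D' b2 - D' b1 + (E (b1 + n) - E b2) = g' + e := by
    have g1 := hE1.per b1
    have g2 := hEm hb12
    have g3 := hEm (show b2 ≤ b2 + c by omega)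
    have g4 := h.hDb
    omega
  rw [e1] at hM1
  refine ⟨M, hM1, hM2, hM3, ?_, ?_⟩
  · have g1 := hM1.win b1
    have g2 := mono_of_step hM1.step (show b1 ≤ b1 + c by omega)
    have := h.hb1
    omega
  · have g1 := hM1.win b2
    have g2 := mono_of_step hM1.step (show b2 ≤ b2 + c by omega)
    have := h.hb2
    omega

/-- a place outside `[b1, b2]` sees only `E` -/
theorem seeE {E M : ℤ → ℤ} {d T : ℤ} (hc : 1 ≤ c) (hE : ∀ x, E x ≤ E (x + 1))
    (hM : ∀ x, M x ≤ M (x + 1)) (hMper : ∀ x, M (x + n) = M x + T)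
    (hM3 : ∀ x, b2 ≤ x → x ≤ b1 + n → M x = E x + d) (hM1 : M (b1 + c) = M b1) {x : ℤ}
    (hx1 : b2 ≤ x) (hx2 : x ≤ b1 + n) : M (x + c) - M x ≤ E (x + c) - E x := by
  have hEm : ∀ {x y : ℤ}, x ≤ y → E x ≤ E y := fun h => mono_of_step hE h
  have hMm : ∀ {x y : ℤ}, x ≤ y → M x ≤ M y := fun h => mono_of_step hM h
  rcases le_or_gt (x + c) (b1 + n) with h | h
  · rw [hM3 _ hx1 hx2, hM3 _ (by omega) h]
    linarith
  · have g1 := hMm (show x + c ≤ b1 + c + n by omega)
    have g2 := hM3 (b1 + n) (by omega) le_rfl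
    have g3 := hM3 x hx1 hx2
    have g4 := hMper b1
    have g5 := hMper (b1 + c)
    have g6 := hEm h.le
    linarith

theorem Dat.two_a (h : Dat n c m m' S S' ρ w g g' b1 b2 P P' R D D') {E : ℤ → ℤ} {e : ℤ}
    (hE1 : Pack n c m' P' E e) (hE2 : Pack n c m P E e) (hE3 : E (b2 + c) = E b1) :
    e < g' := by
  obtain ⟨M, hM1, hM2, hM3, hM4, hM5⟩ := h.mixE hE1 hE3
  by_contra hcon
  have hc := h.hc
  have h3c := h.h3c
  have hb0 := h.hb0
  have hb3 := h.hb3
  have hb12 := h.hb12
  have hmm := h.hmm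
  have hopt : Opt n c m' P' M (g' + e) := ⟨hM1, fun E' T' hE' => by
    have := h.hD'.2 E' T' hE'
    omega⟩
  refine zone' (by omega) hc (by omega) h.hP' hopt hb3 (by rw [hM5]; have := h.hb2; omega)
    fun x hx1 hx2 => ?_
  have g1 := seeE (b2 := b2) (b1 := b1) (n := n) (d := D' b2 - E b2) hc hE1.step hM1.step hM1.per
    (fun x hx1 hx2 => by rw [hM3 x hx1 hx2]; ring) hM4 (x := x) (by omega) (by omega)
  have g2 := hE2.win x
  have g3 := h.hR x
  have g4 := h.hR (x + c)
  have g5 := h.hH.hi (x := x) (by omega) (by omega)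
  have g6 := h.hH.hi (x := x + c) (by omega) (by omega)
  omega

theorem Dat.zero (h : Dat n c m m' S S' ρ w g g' b1 b2 P P' R D D') : 0 < g' := by
  refine h.two_a (E := fun _ => 0) ⟨fun _ => le_rfl, fun x => ?_, fun _ => by simp, fun x => ?_⟩
    ⟨fun _ => le_rfl, fun x => ?_, fun _ => by simp, fun x => ?_⟩ rfl
  · have := h.hP's x
    omega
  · have := h.hm' x
    omega
  · have := h.hP's x
    have g1 := h.hH.step x
    have g3 := h.hR x
    have g4 := h.hR (x + 1)
    omega
  · have := h.hm x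
    omega

theorem Dat.far (h : Dat n c m m' S S' ρ w g g' b1 b2 P P' R D D') : b1 + c < b2 := by
  by_contra hcon
  have h0 := h.zero
  have hc := h.hc
  have g1 := mono_of_step h.hD'.1.step (show b2 ≤ b1 + c by omega)
  have g2 := h.hDb
  have g3 := h.hD'.1.win b1
  have g4 := h.hb1
  omega

theorem Dat.two_d (h : Dat n c m m' S S' ρ w g g' b1 b2 P P' R D D') {E : ℤ → ℤ} {e : ℤ}
    (hE1 : Pack n c m' P' E e) (hE2 : Pack n c m P E e) (hE3 : E (b2 + c) = E b1) :
    g' + e ≤ 2 * g := by
  obtain ⟨M, hM1, hM2, hM3, hM4, hM5⟩ := h.mixE hE1 hE3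
  have hc := h.hc
  have h3c := h.h3c
  have hb0 := h.hb0
  have hb3 := h.hb3
  have hfar := h.far
  have hmm := h.hmm
  have hRm : ∀ {x y : ℤ}, x ≤ y → R x ≤ R y := fun h' => mono_of_step h.hH.step h'
  obtain ⟨μ, hμ⟩ : ∃ μ, μ = m - m' := ⟨_, rfl⟩
  have sR1 : μ ≤ R (b1 + c) - R b1 := by
    have := h.hm b1
    have := h.hb1
    have := h.hR b1
    have := h.hR (b1 + c)
    omega
  have sR2 : μ ≤ R (b2 + c) - R b2 := by
    have := h.hm b2
    have := h.hb2
    have := h.hR b2
    have := h.hR (b2 + c)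
    omega
  have hρμ : 2 * μ ≤ ρ := by
    have g1 := hRm (show b1 + c ≤ b2 by omega)
    have g2 := hRm (show b2 + c ≤ b1 + n by omega)
    have g3 := h.hH.per b1
    omega
  -- the sums of `R`
  have hRlo : ∀ x, w - c + 1 ≤ x → x ≤ w → R x = R w := fun x h1 h2 =>
    h.hH.lo (by omega) h2
  have hRhi : ∀ x, w + c + 1 ≤ x → x ≤ w + n → R x = R w + ρ := fun x h1 h2 => h.hH.hi h1 h2
  have sR3 : ∀ x, b1 ≤ x → x ≤ b2 → μ ≤ R (x + c) - R x := by
    intro x hx1 hx2
    rcases le_or_gt x w with hx | hx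
    · have g1 := hRlo x (by omega) hx
      have g2 := hRlo b1 (by omega) (by omega)
      have g3 := hRm (show b1 + c ≤ x + c by omega)
      omega
    · have g1 := hRhi (x + c) (by omega) (by omega)
      have g2 := hRhi (b2 + c) (by omega) (by omega)
      have g3 := hRm hx2
      omega
  -- the cut of `R`
  obtain ⟨f, hf⟩ : ∃ f : ℤ → ℤ, ∀ x, f x = min (max (R x - R w - μ) 0) (ρ - 2 * μ) :=
    ⟨_, fun _ => rfl⟩
  have hn : 0 < n := by omega
  obtain ⟨Q, hQ1, hQ2⟩ := exists_ext hn w f
  have fw : f w = 0 := by rw [hf]; omega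
  have fwn : f (w + n) = ρ - 2 * μ := by
    rw [hf, h.hH.per]
    omega
  rw [fw, fwn, sub_zero] at hQ1
  have hQlo : ∀ x, w - c + 1 ≤ x → x ≤ w → Q x = 0 := by
    intro x h1 h2
    have g1 := hQ1 x
    rw [hQ2 (x + n) (by omega) (by omega), hf, h.hH.per, hRlo x h1 h2] at g1
    omega
  -- steps of `Q`
  have hQs : ∀ x, w - c + 1 ≤ x → x < w - c + 1 + n →
      Q x ≤ Q (x + 1) ∧ Q (x + 1) - Q x ≤ R (x + 1) - R x := by
    intro x hx1 hx2
    have g0 := h.hH.step x
    rcases lt_or_ge x w with hx | hx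
    · rw [hQlo x hx1 hx.le, hQlo (x + 1) (by omega) (by omega)]
      omega
    · rw [hQ2 x hx (by omega), hQ2 (x + 1) (by omega) (by omega), hf, hf]
      omega
  have hQw : ∀ x, w - c + 1 ≤ x → x < w - c + 1 + n →
      Q (x + c) - Q x ≤ max (R (x + c) - R x - μ) 0 := by
    intro x hx1 hx2
    rcases le_or_gt x w with hx | hx
    · rw [hQlo x hx1 hx, hRlo x hx1 hx, hQ2 (x + c) (by omega) (by omega), hf]
      omega
    · rw [hQ2 (x + c) (by omega) (by omega), hQ2 x hx.le (by omega), hf, hf,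
        hRhi (x + c) (by omega) (by omega)]
      have g1 := hRm hx.le
      have g2 := hRm (show x ≤ w + n by omega)
      rw [h.hH.per] at g2
      omega
  have hkey : Pack n c m P (fun x => M x + Q x) ((g' + e) + (ρ - 2 * μ)) := by
    refine pack_of hn h.hP (fun x => ?_) (w - c + 1) fun x hx1 hx2 => ?_
    · have g1 := hM1.per x
      have g2 := hQ1 x
      linarith
    · obtain ⟨g1, g2⟩ := hQs x hx1 hx2
      have g3 := hM1.step x
      have g4 := hM1.le x
      have g5 := h.hR x
      have g6 := h.hR (x + 1)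
      have g7 := h.hR (x + c)
      have g8 := hQw x hx1 hx2
      refine ⟨by linarith, by linarith, ?_⟩
      by_cases hx : b1 ≤ x ∧ x ≤ b2
      · have g9 := sR3 x hx.1 hx.2
        have g10 := hM1.win x
        beta_reduce
        omega
      · have g11 : M (x + c) - M x ≤ E (x + c) - E x := by
          rcases lt_or_ge x b1 with h1 | h1
          · have k1 := seeE (b2 := b2) (b1 := b1) (n := n) (d := D' b2 - E b2) hc hE1.step
              hM1.step hM1.per (fun x hx1 hx2 => by rw [hM3 x hx1 hx2]; ring) hM4 (x := x + n)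
              (by omega) (by omega)
            rw [show x + n + c = x + c + n by ring, hM1.per, hM1.per, hE1.per, hE1.per] at k1
            linarith
          · exact seeE (b2 := b2) (b1 := b1) (n := n) (d := D' b2 - E b2) hc hE1.step
              hM1.step hM1.per (fun x hx1 hx2 => by rw [hM3 x hx1 hx2]; ring) hM4 (x := x)
              (by omega) (by omega)
        have g12 := hE1.win x
        have g13 := hE2.win x
        beta_reduce
        omega
  have := h.hD.2 _ _ hkey
  omega

theorem Dat.false (h : Dat n c m m' S S' ρ w g g' b1 b2 P P' R D D') {a1 a2 : ℤ} (ha1 : a1 ≤ w)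
    (ha2 : w < a2) (ha3 : a2 ≤ a1 + n) (hDa : D a2 = D a1 + g) (hPa1 : P (a1 + c) - P a1 = m)
    (hPa2 : P (a2 + c) - P a2 = m) : False := by
  have hc := h.hc
  have h3c := h.h3c
  have hb0 := h.hb0
  have hb3 := h.hb3
  have hfar := h.far
  have hmm := h.hmm
  obtain ⟨hD1, hD2⟩ := h.hD
  have hn : 0 < n := by omega
  have hRm : ∀ {x y : ℤ}, x ≤ y → R x ≤ R y := fun h' => mono_of_step h.hH.step h'
  have hRlo : ∀ x, w - c + 1 ≤ x → x ≤ w → R x = R w := fun x h1 h2 =>
    h.hH.lo (by omega) h2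
  have hRhi : ∀ x, w + c + 1 ≤ x → x ≤ w + n → R x = R w + ρ := fun x h1 h2 => h.hH.hi h1 h2
  obtain ⟨μ, hμ⟩ : ∃ μ, μ = m - m' := ⟨_, rfl⟩
  have sR1 : μ ≤ R (b1 + c) - R b1 := by
    have := h.hm b1
    have := h.hb1
    have := h.hR b1
    have := h.hR (b1 + c)
    omega
  have sR2 : μ ≤ R (b2 + c) - R b2 := by
    have := h.hm b2
    have := h.hb2
    have := h.hR b2
    have := h.hR (b2 + c)
    omega
  have sA1 : R (a1 + c) - R a1 ≤ μ := by
    have := h.hm' a1
    have := h.hR a1
    have := h.hR (a1 + c)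
    omega
  have sA2 : R (a2 + c) - R a2 ≤ μ := by
    have := h.hm' a2
    have := h.hR a2
    have := h.hR (a2 + c)
    omega
  -- the half of `D` away from the hump
  have ca2 : D (a2 + c) ≤ D a2 := by
    have g1 := hD1.win a2
    omega
  obtain ⟨E, hE1, hE2, hE3⟩ := mix (m := m) (E := fun _ => 0) (F := D) hn hc (by omega) h.hP
    (show a1 ≤ a2 by omega) ha3 (fun _ => le_rfl) hD1.step
    (fun x _ _ => by
      have g1 := h.hP's x
      have g2 := h.hH.step x
      have g3 := h.hR x
      have g4 := h.hR (x + 1)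
      omega)
    (fun x _ _ => hD1.le x) (fun x _ _ => by have := h.hm x; omega) (fun x _ _ => hD1.win x)
    le_rfl ca2
  have e1 : (0 : ℤ) - 0 + (D (a1 + n) - D a2) = g := by
    have := hD1.per a1
    omega
  rw [e1] at hE1
  have hEm : ∀ {x y : ℤ}, x ≤ y → E x ≤ E y := fun h => mono_of_step hE1.step h
  have z1 : E a1 = 0 := hE2 a1 le_rfl (by omega)
  have z2 : E (a2 + c) = 0 := by
    have g1 := hE1.win a2
    have g2 : E a2 = 0 := hE2 a2 (by omega) le_rfl
    have g3 := hEm (show a2 ≤ a2 + c by omega)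
    omega
  -- `E` vanishes on `[b1, b2 + c]`
  have z3 : E (b2 + c) ≤ 0 := by
    rcases le_or_gt b2 a2 with h1 | h1
    · have := hEm (show b2 + c ≤ a2 + c by omega)
      omega
    · have g1 := hRhi (a2 + c) (by omega) (by omega)
      have g2 := hRhi (b2 + c) (by omega) (by omega)
      have g3 := hRm h1.le
      have g4 := hE1.win b2
      have g5 := h.hb2
      have g6 := h.hR b2
      have g7 := h.hR (b2 + c)
      have g8 := hEm (show b2 ≤ a2 + c by omega)
      omega
  have z4 : 0 ≤ E b1 := by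
    rcases le_or_gt a1 b1 with h1 | h1
    · have := hEm h1
      omega
    · have g1 := hRlo a1 (by omega) ha1
      have g2 := hRlo b1 (by omega) (by omega)
      have g3 := hRm (show b1 + c ≤ a1 + c by omega)
      have g4 := hE1.win b1
      have g5 := h.hb1
      have g6 := h.hR b1
      have g7 := h.hR (b1 + c)
      have g8 := hEm (show a1 ≤ b1 + c by omega)
      omega
  have hE4 : E (b2 + c) = E b1 := by
    have := hEm (show b1 ≤ b2 + c by omega)
    omega
  have hE5 : Pack n c m' P' E g := by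
    refine pack_of hn h.hP' hE1.per (w - c + 1) fun x hx1 hx2 => ⟨hE1.step x, ?_, ?_⟩
    · have g1 := hE1.le x
      have g2 := h.hR x
      have g3 := h.hR (x + 1)
      rcases lt_or_ge x w with h1 | h1
      · have g4 := hRlo x hx1 h1.le
        have g5 := hRlo (x + 1) (by omega) (by omega)
        omega
      · rcases le_or_gt x (w + c) with h2 | h2
        · have g4 := hEm (show a1 ≤ x by omega)
          have g5 := hEm (show x + 1 ≤ a2 + c by omega)
          have g6 := h.hP's x
          omega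
        · have g4 := h.hH.flat x h2 (by omega)
          omega
    · have g1 := hE1.win x
      have g2 := h.hR x
      have g3 := h.hR (x + c)
      have g4 := h.hm' x
      rcases le_or_gt (R (x + c) - R x) μ with h1 | h1
      · omega
      · rcases le_or_gt x w with h2 | h2
        · have g5 : a1 ≤ x := by
            by_contra hcon
            have k1 := hRlo a1 (by omega) ha1
            have k2 := hRlo x hx1 h2
            have k3 := hRm (show x + c ≤ a1 + c by omega)
            omega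
          have g6 := hEm g5
          have g7 := hEm (show x + c ≤ a2 + c by omega)
          omega
        · rcases le_or_gt x (w + c) with h3 | h3
          · have g5 : x < a2 := by
              by_contra hcon
              have k1 := hRhi (a2 + c) (by omega) (by omega)
              have k2 := hRhi (x + c) (by omega) (by omega)
              have k3 := hRm (show a2 ≤ x by omega)
              omega
            have g6 := hEm (show a1 ≤ x by omega)
            have g7 := hEm (show x + c ≤ a2 + c by omega)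
            omega
          · have k1 := hRhi x (by omega) (by omega)
            have k2 := hRhi (x + c) (by omega) (by omega)
            omega
  have f1 := h.two_a hE5 hE1 hE4
  have f2 := h.two_d hE5 hE1 hE4
  omega

end Pool.Agent.W_30d1b9_h71
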